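import Pool.Agent.Y199.Gon.Pts

set_option autoImplicit false

namespace Pool.Agent.Y199.Gon

open MvPolynomial

universe u

variable {k : Type u} [Field k] [CharP k 2]

theorem smooth_aux {x y : Fin 3 → k} (hx : x ≠ 0) (hy : y ≠ 0) : LinearIndependent k
    ![fun v => value (pderiv v (eqF k)) x y, fun v => value (pderiv v (eqG k)) x y] := by
  have h2 : (2 : k) = 0 := by exact_mod_cast CharP.cast_eq_zero k 2
  have hFl : ∀ i, value (pderiv (Sum.inl i) (eqF k)) x y = y i ^ 2 := by
    intro i
    simp only [eqF, map_sum, value, Derivation.leibniz, Derivation.leibniz_pow, pderiv_X,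
      Pi.single_apply]
    simp [apply_ite]
  have hFr : ∀ i, value (pderiv (Sum.inr i) (eqF k)) x y = 0 := by
    intro i
    simp only [eqF, map_sum, value, Derivation.leibniz, Derivation.leibniz_pow, pderiv_X,
      Pi.single_apply]
    simp [apply_ite, h2]
  have hGl : ∀ i, value (pderiv (Sum.inl i) (eqG k)) x y = 0 := by
    intro i
    simp only [eqG, map_sum, value, Derivation.leibniz, Derivation.leibniz_pow, pderiv_X,
      Pi.single_apply]
    simp [apply_ite, h2]
  have hGr : ∀ i, value (pderiv (Sum.inr i) (eqG k)) x y = x i ^ 2 := by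
    intro i
    simp only [eqG, map_sum, value, Derivation.leibniz, Derivation.leibniz_pow, pderiv_X,
      Pi.single_apply]
    simp [apply_ite]
  rw [LinearIndependent.pair_iff]
  intro s t hst
  constructor
  · by_contra hs
    apply hy
    funext i
    have h3 := congrFun hst (Sum.inl i)
    simp only [Pi.add_apply, Pi.smul_apply, smul_eq_mul, hFl, hGl, mul_zero, add_zero,
      Pi.zero_apply] at h3
    exact pow_eq_zero_iff (two_ne_zero) |>.mp ((mul_eq_zero.mp h3).resolve_left hs)
  · by_contra ht
    apply hx
    funext i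
    have h3 := congrFun hst (Sum.inr i)
    simp only [Pi.add_apply, Pi.smul_apply, smul_eq_mul, hFr, hGr, mul_zero, zero_add,
      Pi.zero_apply] at h3
    exact pow_eq_zero_iff (two_ne_zero) |>.mp ((mul_eq_zero.mp h3).resolve_left ht)

end Pool.Agent.Y199.Gon
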