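import Mathlib

/-!
A surface in characteristic two whose function field is not purely transcendental.
-/

set_option autoImplicit false

namespace Pool.Agent.Y199.Gon

open Polynomial IntermediateField

universe u

section der

/-- Derivations extend to the field of fractions. -/
theorem exists_der_frac {k B L : Type u} [Field k] [CommRing B] [IsDomain B] [Algebra k B]
    [Field L] [Algebra B L] [Algebra k L] [IsScalarTower k B L] [IsFractionRing B L]
    (E : Derivation k B B) : ∃ E' : Derivation k L L,
      ∀ b, E' (algebraMap B L b) = algebraMap B L (E b) := by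
  have hfe : Algebra.FormallyEtale B L :=
    Algebra.FormallyEtale.of_isLocalization (nonZeroDivisors B)
  let l0 : Ω[B⁄k] →ₗ[B] L := (Algebra.linearMap B L) ∘ₗ E.liftKaehlerDifferential
  let l : TensorProduct B L Ω[B⁄k] →ₗ[L] L := LinearMap.liftBaseChange L l0
  let e := KaehlerDifferential.tensorKaehlerEquivOfFormallyEtale k B L
  refine ⟨(l ∘ₗ e.symm.toLinearMap).compDer (KaehlerDifferential.D k L), fun c => ?_⟩
  change l (e.symm (KaehlerDifferential.D k L (algebraMap B L c))) = _
  rw [KaehlerDifferential.tensorKaehlerEquivOfFormallyEtale_symm_D_algebraMap,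
    LinearMap.liftBaseChange_tmul, one_smul]
  change algebraMap B L (E.liftKaehlerDifferential (KaehlerDifferential.D k B c)) = _
  rw [Derivation.liftKaehlerDifferential_comp_D]

variable {k F K : Type u} [Field k] [Field F] [Field K] [Algebra k F] [Algebra k K] [Algebra F K]
  [IsScalarTower k F K]

theorem exists_der_ext (t : K) (ht : Transcendental F t) (htop : F⟮t⟯ = ⊤)
    (E : Derivation k F[X] F[X]) :
    ∃ D : Derivation k K K, ∀ f : F[X], D (aeval t f) = aeval t (E f) := by
  letI : Algebra F[X] K := (aeval t : F[X] →ₐ[F] K).toRingHom.toAlgebra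
  have halg : ∀ f : F[X], algebraMap F[X] K f = aeval t f := fun f => rfl
  haveI : IsScalarTower k F[X] K := by
    refine IsScalarTower.of_algebraMap_eq fun c => ?_
    rw [halg, IsScalarTower.algebraMap_apply k F K, IsScalarTower.algebraMap_apply k F F[X],
      Polynomial.algebraMap_apply]
    simp
  have hinj : Function.Injective (algebraMap F[X] K) := by
    have := transcendental_iff_injective.mp ht
    exact this
  haveI : FaithfulSMul F[X] K := (faithfulSMul_iff_algebraMap_injective _ _).mpr hinj
  haveI : IsFractionRing F[X] K := by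
    refine IsFractionRing.of_field F[X] K fun z => ?_
    have hz : z ∈ F⟮t⟯ := by rw [htop]; trivial
    obtain ⟨r, s, hrs⟩ := (IntermediateField.mem_adjoin_simple_iff F z).mp hz
    exact ⟨r, s, by rw [halg, halg, hrs]⟩
  obtain ⟨D, hD⟩ := exists_der_frac (k := k) (B := F[X]) (L := K) E
  exact ⟨D, fun f => hD f⟩

/-- the coefficientwise derivation -/
noncomputable def cf (δ : Derivation k F F) : Derivation k F[X] F[X] :=
  PolynomialModule.equivPolynomialSelf.toLinearMap.compDer δ.mapCoeffs

theorem coeff_cf (δ : Derivation k F F) (f : F[X]) (n : ℕ) :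
    (cf δ f).coeff n = δ (f.coeff n) := rfl

theorem natDegree_cf (δ : Derivation k F F) (f : F[X]) :
    (cf δ f).natDegree ≤ f.natDegree := by
  rw [natDegree_le_iff_coeff_eq_zero]
  intro n hn
  rw [coeff_cf, coeff_eq_zero_of_natDegree_lt hn, map_zero]

/-- the usual derivative -/
noncomputable def dv (k F : Type u) [Field k] [Field F] [Algebra k F] :
    Derivation k F[X] F[X] :=
  (derivative' (R := F)).restrictScalars k

theorem dv_apply (f : F[X]) : dv k F f = derivative f := rfl

end der

section unimod

theorem par {R : Type u} [CommRing R] {w z s : Fin 3 → R} (h : ∀ i j, w i * z j = w j * z i)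
    (hs : ∑ i, s i * z i = 1) (i : Fin 3) : w i = (∑ j, s j * w j) * z i := by
  calc w i = w i * ∑ j, s j * z j := by rw [hs, mul_one]
    _ = ∑ j, s j * (w i * z j) := by
        rw [Finset.mul_sum]
        exact Finset.sum_congr rfl fun j _ => by ring
    _ = (∑ j, s j * w j) * z i := by
        rw [Finset.sum_mul]
        refine Finset.sum_congr rfl fun j _ => ?_
        rw [h i j]; ring

/-- the cross product -/
def cr {R : Type u} [CommRing R] (x y : Fin 3 → R) : Fin 3 → R :=
  ![x 1 * y 2 - x 2 * y 1, x 2 * y 0 - x 0 * y 2, x 0 * y 1 - x 1 * y 0]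

theorem cr_par {R : Type u} [CommRing R] {x d z : Fin 3 → R} (h1 : ∑ i, x i * z i = 0)
    (h2 : ∑ i, d i * z i = 0) (i j : Fin 3) : cr x d i * z j = cr x d j * z i := by
  rw [Fin.sum_univ_three] at h1 h2
  fin_cases i <;> fin_cases j <;> simp [cr]
  · linear_combination d 2 * h1 - x 2 * h2
  · linear_combination (-d 1) * h1 + x 1 * h2
  · linear_combination -d 2 * h1 + x 2 * h2
  · linear_combination d 0 * h1 - x 0 * h2
  · linear_combination d 1 * h1 - x 1 * h2
  · linear_combination -d 0 * h1 + x 0 * h2

theorem exists_unimod {R K : Type u} [CommRing R] [IsDomain R] [IsPrincipalIdealRing R] [Field K]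
    [Algebra R K] [IsFractionRing R K] {x : Fin 3 → K} (hx : x ≠ 0) :
    ∃ (c : K) (x' s : Fin 3 → R), c ≠ 0 ∧ (∀ i, x i = c * algebraMap R K (x' i)) ∧
      ∑ i, s i * x' i = 1 := by
  obtain ⟨d, hd⟩ := IsLocalization.exist_integer_multiples_of_finite (nonZeroDivisors R) x
  choose z hz using hd
  have hd0 : algebraMap R K d ≠ 0 := by
    have := nonZeroDivisors.coe_ne_zero d
    rwa [Ne, FaithfulSMul.algebraMap_eq_zero_iff]
  have hz' : ∀ i, algebraMap R K (z i) = algebraMap R K d * x i := by
    intro i
    rw [hz i, Algebra.smul_def]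
  obtain ⟨g, hg⟩ := (IsPrincipalIdealRing.principal (Ideal.span (Set.range z))).principal
  have hzi : ∀ i, ∃ a, z i = a * g := by
    intro i
    have : z i ∈ Ideal.span (Set.range z) := Ideal.subset_span ⟨i, rfl⟩
    rw [hg] at this
    obtain ⟨a, ha⟩ := Submodule.mem_span_singleton.mp this
    exact ⟨a, ha.symm⟩
  choose x' hx' using hzi
  have hgm : g ∈ Ideal.span (Set.range z) := by
    rw [hg]; exact Submodule.mem_span_singleton_self g
  obtain ⟨s, hs⟩ := (Ideal.mem_span_range_iff_exists_fun).mp hgm
  have hg0 : g ≠ 0 := by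
    intro h0
    apply hx
    funext i
    have : algebraMap R K (z i) = 0 := by rw [hx' i, h0, mul_zero, map_zero]
    rw [hz' i] at this
    exact (mul_eq_zero.mp this).resolve_left hd0
  have hg0' : algebraMap R K g ≠ 0 := by
    rwa [Ne, FaithfulSMul.algebraMap_eq_zero_iff]
  refine ⟨algebraMap R K g / algebraMap R K d, x', s, div_ne_zero hg0' hd0, fun i => ?_, ?_⟩
  · have := hz' i
    rw [hx' i, map_mul] at this
    field_simp
    rw [mul_comm, ← this]; ring
  · have h1 : (∑ i, s i * x' i) * g = 1 * g := by
      rw [one_mul, Finset.sum_mul]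
      conv_rhs => rw [← hs]
      refine Finset.sum_congr rfl fun i _ => ?_
      rw [hx' i, mul_assoc]
    exact mul_right_cancel₀ hg0 h1

end unimod

section deg

variable {F : Type u} [Field F]

theorem sup_deg (y : Fin 3 → F[X]) (hy : y ≠ 0) :
    ∃ b : ℕ, (∀ i, (y i).natDegree ≤ b) ∧ ∃ i, y i ≠ 0 ∧ (y i).natDegree = b := by
  obtain ⟨j, hj⟩ : ∃ j, y j ≠ 0 := by
    by_contra h
    push Not at h
    exact hy (funext h)
  by_cases h : ∀ i, (y i).natDegree = 0
  · exact ⟨0, fun i => (h i).le, j, hj, h j⟩
  · push Not at h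
    obtain ⟨i₀, hi₀⟩ := h
    obtain ⟨i, -, hi⟩ := Finset.exists_max_image Finset.univ (fun i => (y i).natDegree)
      ⟨0, Finset.mem_univ _⟩
    refine ⟨(y i).natDegree, fun l => hi l (Finset.mem_univ _), i, ?_, rfl⟩
    intro h0
    have h1 := hi i₀ (Finset.mem_univ _)
    rw [h0] at h1
    simp at h1
    exact hi₀ h1

theorem deg_u {k : Type u} [Field k] [Algebra k F] (δ : Derivation k F F) {x : Fin 3 → F[X]}
    {a : ℕ} (ha : ∀ i, (x i).natDegree ≤ a) (i : Fin 3) :
    (cr x (fun i => cf δ (x i)) i).natDegree ≤ 2 * a := by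
  have key : ∀ i j, (x i * cf δ (x j) - x j * cf δ (x i)).natDegree ≤ 2 * a := by
    intro i j
    have h1 : ∀ i j, (x i * cf δ (x j)).natDegree ≤ 2 * a := by
      intro i j
      calc (x i * cf δ (x j)).natDegree ≤ (x i).natDegree + (cf δ (x j)).natDegree :=
            natDegree_mul_le
        _ ≤ a + a := add_le_add (ha i) ((natDegree_cf δ (x j)).trans (ha j))
        _ = 2 * a := by ring
    exact (natDegree_sub_le _ _).trans (max_le (h1 i j) (h1 j i))
  fin_cases i
  · exact key 1 2
  · exact key 2 0
  · exact key 0 1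

theorem deg_v {x : Fin 3 → F[X]} {a : ℕ} (ha : ∀ i, (x i).natDegree ≤ a) (i : Fin 3)
    (h0 : cr x (fun i => derivative (x i)) i ≠ 0) :
    (cr x (fun i => derivative (x i)) i).natDegree < 2 * a := by
  have ha0 : 0 < a := by
    by_contra h
    push Not at h
    have h1 : ∀ i, derivative (x i) = 0 := by
      intro i
      have : (x i).natDegree = 0 := by have := ha i; omega
      exact derivative_of_natDegree_zero this
    apply h0
    fin_cases i <;> simp [cr, h1]
  have key : ∀ i j, (x i * derivative (x j) - x j * derivative (x i)).natDegree < 2 * a := by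
    intro i j
    have h1 : ∀ i j, (x i * derivative (x j)).natDegree ≤ a + (a - 1) := by
      intro i j
      calc (x i * derivative (x j)).natDegree ≤ (x i).natDegree + (derivative (x j)).natDegree :=
            natDegree_mul_le
        _ ≤ a + (a - 1) := add_le_add (ha i) ((natDegree_derivative_le _).trans
            (Nat.sub_le_sub_right (ha j) 1))
    have h2 := (natDegree_sub_le (x i * derivative (x j)) (x j * derivative (x i))).trans
      (max_le (h1 i j) (h1 j i))
    omega
  fin_cases i
  · exact key 1 2
  · exact key 2 0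
  · exact key 0 1

end deg

end Pool.Agent.Y199.Gon
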