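import Mathlib

/-!
Closed subsets of `P² × P²`, their function fields, degrees of dominant rational maps.
-/

set_option autoImplicit false

namespace Pool.Agent.Y199.Gon

open MvPolynomial IntermediateField

universe u

/-- Polynomials in the homogeneous coordinates `x_0, x_1, x_2` (left) and `y_0, y_1, y_2` (right)
of `P² × P²`. -/
abbrev Poly (k : Type u) [Field k] := MvPolynomial (Fin 3 ⊕ Fin 3) k

/-- The polynomial is bihomogeneous of bidegree `(a, b)`. -/
def IsBihom {k : Type u} [Field k] (P : Poly k) (a b : ℕ) : Prop :=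
  ∀ m ∈ P.support, ∑ i, m (Sum.inl i) = a ∧ ∑ i, m (Sum.inr i) = b

/-- The value of a polynomial at the pair `(x, y)`. -/
noncomputable def value {k K : Type u} [Field k] [Field K] [Algebra k K] (P : Poly k)
    (x y : Fin 3 → K) : K :=
  aeval (Sum.elim x y) P

/-- The closed subset `F = G = 0` of `P² × P²`, as a set of pairs of nonzero vectors. -/
def zeroLocus {k : Type u} [Field k] (F G : Poly k) : Set ((Fin 3 → k) × (Fin 3 → k)) :=
  {q | q.1 ≠ 0 ∧ q.2 ≠ 0 ∧ value F q.1 q.2 = 0 ∧ value G q.1 q.2 = 0}

/-- Jacobian criterion: the gradients of `F` and `G` are linearly independent at each point of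
`F = G = 0`. -/
def IsSmooth {k : Type u} [Field k] (F G : Poly k) : Prop :=
  ∀ q ∈ zeroLocus F G, LinearIndependent k
    ![fun v => value (pderiv v F) q.1 q.2, fun v => value (pderiv v G) q.1 q.2]

/-- The closed subset `S` of `P² × P²` is irreducible with generic point `([x], [y])`, and `K` is its
function field: a bihomogeneous polynomial with coefficients in `k` vanishes at `(x, y)` if and only
if it vanishes on `S`, and `K` is generated over `k` by the quotients `x_i / x_j` and
`y_i / y_j`. -/
structure IsFunctionField {k : Type u} [Field k] (S : Set ((Fin 3 → k) × (Fin 3 → k)))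
    {K : Type u} [Field K] [Algebra k K] (x y : Fin 3 → K) : Prop where
  x_ne : x ≠ 0
  y_ne : y ≠ 0
  vanish : ∀ (P : Poly k) (a b : ℕ), IsBihom P a b →
    (value P x y = 0 ↔ ∀ q ∈ S, value P q.1 q.2 = 0)
  gen : adjoin k ({z | ∃ i j, z = x i / x j} ∪ {z | ∃ i j, z = y i / y j}) = ⊤

/-- `K` being the function field of a variety over `k`, the elements `u_1, …, u_n` are the affine
coordinates of a dominant rational map of degree `d` from the variety to `P^n`. -/
def IsDominantOfDegree (k : Type u) {K : Type u} [Field k] [Field K] [Algebra k K] {n : ℕ}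
    (u : Fin n → K) (d : ℕ) : Prop :=
  AlgebraicIndependent k u ∧ 0 < d ∧ Module.finrank (adjoin k (Set.range u)) K = d

/-- `Σ x_i y_i²`. -/
noncomputable def eqF (k : Type u) [Field k] : Poly k := ∑ i, X (Sum.inl i) * X (Sum.inr i) ^ 2

/-- `Σ x_i² y_i`. -/
noncomputable def eqG (k : Type u) [Field k] : Poly k := ∑ i, X (Sum.inl i) ^ 2 * X (Sum.inr i)

/-- The preimage of the line `Σ a_i x_i = 0` of `P²` under the first projection of the surface
`Σ x_i y_i² = Σ x_i² y_i = 0`. -/
def overLine {k : Type u} [Field k] (a : Fin 3 → k) : Set ((Fin 3 → k) × (Fin 3 → k)) :=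
  {q ∈ zeroLocus (eqF k) (eqG k) | ∑ i, a i * q.1 i = 0}

end Pool.Agent.Y199.Gon
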