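import Pool.Agent.Y199.Gon.Irr

set_option autoImplicit false

namespace Pool.Agent.Y199.Gon

open MvPolynomial IntermediateField

universe u

section homog

variable {k K : Type u} [Field k] [Field K] [Algebra k K]

/-- A homogeneous polynomial in the coordinates `x`. -/
theorem isBihom_rename {p : MvPolynomial (Fin 3) k} {n : ℕ} (hp : p.IsHomogeneous n) :
    IsBihom (rename Sum.inl p : Poly k) n 0 := by
  classical
  intro m hm
  rw [mem_support_iff] at hm
  obtain ⟨m', rfl, hm'⟩ := coeff_rename_ne_zero _ _ _ hm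
  have h1 := hp hm'
  constructor
  · have : ∀ i, (Finsupp.mapDomain (Sum.inl : Fin 3 → Fin 3 ⊕ Fin 3) m') (Sum.inl i) = m' i :=
      fun i => Finsupp.mapDomain_apply Sum.inl_injective m' i
    simp only [this]
    rw [← h1, Finsupp.weight_apply, Finsupp.sum_fintype _ _ (by simp)]
    simp
  · have : ∀ i, (Finsupp.mapDomain (Sum.inl : Fin 3 → Fin 3 ⊕ Fin 3) m') (Sum.inr i) = 0 :=
      fun i => Finsupp.mapDomain_of_notMem_range _ _ (by simp)
    simp only [this, Finset.sum_const_zero]

theorem value_rename (p : MvPolynomial (Fin 3) k) (x y : Fin 3 → K) :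
    value (rename Sum.inl p : Poly k) x y = aeval x p := by
  rw [value, aeval_rename]; rfl

theorem vanish_x {S : Set ((Fin 3 → k) × (Fin 3 → k))} {x y : Fin 3 → K}
    (h : IsFunctionField S x y) {p : MvPolynomial (Fin 3) k} {n : ℕ} (hp : p.IsHomogeneous n) :
    aeval x p = 0 ↔ ∀ q ∈ S, (aeval q.1 p : k) = 0 := by
  have := h.vanish _ _ _ (isBihom_rename hp)
  rw [value_rename] at this
  rw [this]
  constructor
  · intro h1 q hq
    rw [← value_rename p q.1 q.2]
    exact h1 q hq
  · intro h1 q hq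
    rw [value_rename p q.1 q.2]
    exact h1 q hq

/-- homogenisation -/
noncomputable def hom (p : MvPolynomial (Fin 2) k) : MvPolynomial (Fin 3) k :=
  ∑ m ∈ p.support, C (coeff m p) * (X 0 ^ (p.totalDegree - (m 0 + m 1)) * X 1 ^ m 0 * X 2 ^ m 1)

theorem deg_le (p : MvPolynomial (Fin 2) k) {m : Fin 2 →₀ ℕ} (hm : m ∈ p.support) :
    m 0 + m 1 ≤ p.totalDegree := by
  have := le_totalDegree hm
  rw [Finsupp.sum_fintype _ _ (by simp), Fin.sum_univ_two] at this
  exact this

theorem hom_homogeneous (p : MvPolynomial (Fin 2) k) : (hom p).IsHomogeneous p.totalDegree := by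
  refine IsHomogeneous.sum _ _ _ fun m hm => ?_
  have h1 := deg_le p hm
  have h2 : p.totalDegree = 0 + ((p.totalDegree - (m 0 + m 1)) + m 0 + m 1) := by omega
  conv =>
    arg 2
    rw [h2]
  refine (isHomogeneous_C _ _).mul (((?_ : IsHomogeneous _ _).mul ?_).mul ?_)
  · exact isHomogeneous_X_pow _ _
  · exact isHomogeneous_X_pow _ _
  · exact isHomogeneous_X_pow _ _

theorem aeval_hom (p : MvPolynomial (Fin 2) k) {z : Fin 3 → K} (hz : z 0 ≠ 0) :
    aeval z (hom p) = z 0 ^ p.totalDegree * aeval ![z 1 / z 0, z 2 / z 0] p := by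
  rw [hom, map_sum, aeval_def, eval₂_eq', Finset.mul_sum]
  refine Finset.sum_congr rfl fun m hm => ?_
  have h1 := deg_le p hm
  simp only [map_mul, map_pow, aeval_X, aeval_C, Fin.prod_univ_two, Matrix.cons_val_zero,
    Matrix.cons_val_one, div_pow]
  have h2 : z 0 ^ p.totalDegree = z 0 ^ (p.totalDegree - (m 0 + m 1)) * z 0 ^ m 0 * z 0 ^ m 1 := by
    rw [← pow_add, ← pow_add]
    congr 1
    omega
  rw [h2]
  field_simp

end homog

section ratios

variable {k K : Type u} [Field k] [Field K] [Algebra k K]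

theorem ratio_mem {x : Fin 3 → K} (hx : x 0 ≠ 0) (L : IntermediateField k K)
    (h1 : x 1 / x 0 ∈ L) (h2 : x 2 / x 0 ∈ L) (i j : Fin 3) : x i / x j ∈ L := by
  have h : ∀ i, x i / x 0 ∈ L := by
    intro i
    fin_cases i
    · simp only [Fin.zero_eta, div_self hx]; exact L.one_mem
    · exact h1
    · exact h2
  have : x i / x j = (x i / x 0) / (x j / x 0) := (div_div_div_cancel_right₀ hx _ _).symm
  rw [this]
  exact L.div_mem (h i) (h j)

end ratios

section quad

variable {k K : Type u} [Field k] [Field K] [Algebra k K]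

/-- an extension generated by a square root has degree at most two -/
theorem finrank_le_two (w : K) (hw : ∃ c : k, algebraMap k K c = w ^ 2)
    (htop : adjoin k {w} = ⊤) : FiniteDimensional k K ∧ Module.finrank k K ≤ 2 := by
  obtain ⟨c, hc⟩ := hw
  have hroot : Polynomial.aeval w (Polynomial.X ^ 2 - Polynomial.C c : Polynomial k) = 0 := by
    rw [map_sub, Polynomial.aeval_X_pow, Polynomial.aeval_C, hc, sub_self]
  have hmon : (Polynomial.X ^ 2 - Polynomial.C c : Polynomial k).Monic :=
    Polynomial.monic_X_pow_sub_C c two_ne_zero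
  have hint : IsIntegral k w := ⟨_, hmon, hroot⟩
  have h1 : (minpoly k w).natDegree ≤ 2 := by
    have := Polynomial.natDegree_le_natDegree (minpoly.min k w hmon hroot)
    rwa [Polynomial.natDegree_X_pow_sub_C] at this
  have h2 := adjoin.finrank hint
  have h3 := adjoin.finiteDimensional hint
  have h4 : Module.finrank k (adjoin k {w}) = Module.finrank k K := by
    rw [htop]; exact finrank_top'
  refine ⟨?_, by rw [← h4, h2]; exact h1⟩
  rw [htop] at h3
  exact (topEquiv (F := k) (E := K)).toLinearEquiv.finiteDimensional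

end quad

section surf

variable {k K : Type u} [Field k] [CharP k 2] [IsAlgClosed k] [Field K] [Algebra k K]

theorem ff_x0 {x y : Fin 3 → K} (h : IsFunctionField (zeroLocus (eqF k) (eqG k)) x y) :
    x 0 ≠ 0 := by
  intro h0
  have h1 := (vanish_x h (isHomogeneous_X k (0 : Fin 3))).mp (by rw [aeval_X]; exact h0)
  have h2 : (![1, 0, 0] : Fin 3 → k) ≠ 0 := by
    intro h3
    have := congrFun h3 0
    simp at this
  obtain ⟨y', hy'⟩ := exists_pt h2
  have := h1 _ hy'
  simp at this

theorem ff_indep {x y : Fin 3 → K} (h : IsFunctionField (zeroLocus (eqF k) (eqG k)) x y) :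
    AlgebraicIndependent k ![x 1 / x 0, x 2 / x 0] := by
  rw [algebraicIndependent_iff]
  intro p hp
  have h0 := ff_x0 h
  have h1 : aeval x (hom p) = 0 := by rw [aeval_hom p h0, hp, mul_zero]
  have h2 := (vanish_x h (hom_homogeneous p)).mp h1
  apply MvPolynomial.funext
  intro z
  have h3 : (![1, z 0, z 1] : Fin 3 → k) ≠ 0 := by
    intro h4
    have := congrFun h4 0
    simp at this
  obtain ⟨y', hy'⟩ := exists_pt h3
  have h4 := h2 _ hy'
  have h5 : (![1, z 0, z 1] : Fin 3 → k) 0 ≠ 0 := by simp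
  rw [aeval_hom p h5] at h4
  simp only [Matrix.cons_val_zero, one_pow, one_mul, Matrix.cons_val_one, div_one] at h4
  rw [map_zero, ← MvPolynomial.coe_aeval_eq_eval]
  change aeval z p = 0
  rw [← h4]
  congr 2
  funext i
  fin_cases i <;> simp

theorem charP_of (k K : Type u) [Field k] [CharP k 2] [Field K] [Algebra k K] : CharP K 2 :=
  (RingHom.charP_iff (algebraMap k K) (algebraMap k K).injective 2).mp inferInstance

/-- The coordinates `y` are square roots of rational functions in the `x`. -/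
theorem ff_sq {S : Set ((Fin 3 → k) × (Fin 3 → k))} {x y : Fin 3 → K}
    (h : IsFunctionField S x y) (hS : S ⊆ zeroLocus (eqF k) (eqG k)) :
    (∑ i, x i * y i ^ 2 = 0) ∧ (∑ i, x i ^ 2 * y i = 0) ∧
    ∀ i j, y i ^ 2 * cr x (fun i => x i ^ 4) j = y j ^ 2 * cr x (fun i => x i ^ 4) i := by
  haveI := charP_of k K
  have hF : ∑ i, x i * y i ^ 2 = 0 := by
    rw [← value_F (k := k)]
    exact (h.vanish _ _ _ isBihom_F).mpr fun q hq => (hS hq).2.2.1
  have hG : ∑ i, x i ^ 2 * y i = 0 := by
    rw [← value_G (k := k)]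
    exact (h.vanish _ _ _ isBihom_G).mpr fun q hq => (hS hq).2.2.2
  refine ⟨hF, hG, fun i j => ?_⟩
  have hG2 : ∑ i, x i ^ 4 * y i ^ 2 = 0 := by
    have := congrArg (fun z => z ^ 2) hG
    simp only [sq_sum] at this
    rw [← (by simpa using this : ∑ i, (x i ^ 2 * y i) ^ 2 = 0)]
    refine Finset.sum_congr rfl fun i _ => by ring
  have := cr_par hF hG2 i j
  linear_combination -this

theorem exists_ne_pow (k : Type u) [Field k] [IsAlgClosed k] : ∃ z : k, z ^ 4 ≠ z := by
  by_contra hcon
  push Not at hcon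
  have h3 : (Polynomial.X ^ 4 - Polynomial.X : Polynomial k) = 0 := by
    apply Polynomial.funext
    intro z
    have := hcon z
    simp only [Polynomial.eval_sub, Polynomial.eval_X, Polynomial.eval_pow,
      Polynomial.eval_zero]
    linear_combination this
  have h4 := congrArg (fun p => Polynomial.coeff p 1) h3
  simp [Polynomial.coeff_X, Polynomial.coeff_X_pow] at h4

theorem ff_cr {x y : Fin 3 → K} (h : IsFunctionField (zeroLocus (eqF k) (eqG k)) x y) (i : Fin 3) :
    cr x (fun i => x i ^ 4) i ≠ 0 := by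
  obtain ⟨z, hz⟩ := exists_ne_pow k
  have key : ∀ i j : Fin 3, i ≠ j → x i * x j ^ 4 - x j * x i ^ 4 ≠ 0 := by
    intro i j hij h0
    have hp : (X i * X j ^ 4 - X j * X i ^ 4 : MvPolynomial (Fin 3) k).IsHomogeneous 5 := by
      refine IsHomogeneous.sub ?_ ?_
      · exact (isHomogeneous_X k i).mul (isHomogeneous_X_pow j 4)
      · exact (isHomogeneous_X k j).mul (isHomogeneous_X_pow i 4)
    have h1 := (vanish_x h hp).mp (by simpa using h0)
    have h2 : (fun l => if l = i then z else if l = j then 1 else 0 : Fin 3 → k) ≠ 0 := by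
      intro h3
      have := congrFun h3 j
      simp [hij.symm] at this
    obtain ⟨y', hy'⟩ := exists_pt h2
    have h3 := h1 _ hy'
    simp [hij.symm] at h3
    apply hz
    linear_combination -h3
  fin_cases i
  · exact key 1 2 (by decide)
  · exact key 2 0 (by decide)
  · exact key 0 1 (by decide)

/-- The main properties of the function field of the surface. -/
theorem ff_main {x y : Fin 3 → K} (h : IsFunctionField (zeroLocus (eqF k) (eqG k)) x y) :
    IsDominantOfDegree k ![x 1 / x 0, x 2 / x 0] 2 ∧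
    IsLeast {d | ∃ u : Fin 2 → K, IsDominantOfDegree k u d} 2 := by
  haveI := charP_of k K
  have hx0 := ff_x0 h
  have hind := ff_indep h
  obtain ⟨hF, hG, hsq⟩ := ff_sq h subset_rfl
  have hnr : ∀ u : Fin 2 → K, AlgebraicIndependent k u → adjoin k (Set.range u) ≠ ⊤ := by
    intro u hu
    have h1 : Set.range u = {u 0, u 1} := by
      ext z
      simp only [Set.mem_range, Fin.exists_fin_two, Set.mem_insert_iff, Set.mem_singleton_iff]
      constructor
      · rintro (h | h) <;> simp [h]
      · rintro (h | h) <;> simp [h]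
    rw [h1]
    refine not_rational h.x_ne h.y_ne hF hG h.gen (u 0) (u 1) ?_
    convert hu using 1
    funext i
    fin_cases i <;> rfl
  have hlow : ∀ (u : Fin 2 → K) d, IsDominantOfDegree k u d → 2 ≤ d := by
    rintro u d ⟨hu, hd, hd'⟩
    by_contra hcon
    have hd1 : d = 1 := by omega
    rw [hd1] at hd'
    exact hnr u hu (finrank_eq_one_iff_eq_top.mp hd')
  have hdeg : IsDominantOfDegree k ![x 1 / x 0, x 2 / x 0] 2 := by
    set K₀ := adjoin k (Set.range ![x 1 / x 0, x 2 / x 0]) with hK₀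
    have h1 : x 1 / x 0 ∈ K₀ := subset_adjoin _ _ ⟨0, rfl⟩
    have h2 : x 2 / x 0 ∈ K₀ := subset_adjoin _ _ ⟨1, rfl⟩
    have hr := ratio_mem hx0 K₀ h1 h2
    have htr1 : Transcendental k (x 1 / x 0) := hind.transcendental 0
    have htr2 : Transcendental k (x 2 / x 0) := hind.transcendental 1
    have hx1 : x 1 ≠ 0 := by
      intro h0
      rw [h0, zero_div] at htr1
      exact htr1 (isAlgebraic_zero)
    have hx2 : x 2 ≠ 0 := by
      intro h0
      rw [h0, zero_div] at htr2
      exact htr2 (isAlgebraic_zero)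
    have hc : ∀ i, cr x (fun i => x i ^ 4) i ≠ 0 := ff_cr h
    obtain ⟨j₀, hj₀⟩ : ∃ i, y i ≠ 0 := by
      by_contra h'
      push Not at h'
      exact h.y_ne (funext h')
    have hy : ∀ i, y i ≠ 0 := by
      intro i h0
      have h3 := hsq i j₀
      rw [h0] at h3
      simp only [ne_eq, OfNat.ofNat_ne_zero, not_false_eq_true, zero_pow, zero_mul] at h3
      exact (mul_ne_zero (pow_ne_zero 2 hj₀) (hc i)) h3.symm
    have hcr : ∀ i j, cr x (fun i => x i ^ 4) i / cr x (fun i => x i ^ 4) j ∈ K₀ := by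
      have h3 : ∀ i, cr x (fun i => x i ^ 4) i / x 0 ^ 5 ∈ K₀ := by
        intro i
        have h4 : ∀ i j, (x i * x j ^ 4 - x j * x i ^ 4) / x 0 ^ 5 ∈ K₀ := by
          intro i j
          have h5 : (x i * x j ^ 4 - x j * x i ^ 4) / x 0 ^ 5 =
              (x i / x 0) * (x j / x 0) ^ 4 - (x j / x 0) * (x i / x 0) ^ 4 := by
            field_simp
          rw [h5]
          exact sub_mem (mul_mem (hr i 0) (pow_mem (hr j 0) 4))
            (mul_mem (hr j 0) (pow_mem (hr i 0) 4))
        fin_cases i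
        · exact h4 1 2
        · exact h4 2 0
        · exact h4 0 1
      intro i j
      have h4 := K₀.div_mem (h3 i) (h3 j)
      rwa [div_div_div_cancel_right₀ (pow_ne_zero 5 hx0)] at h4
    have hw2 : ∀ i, (y i / y 0) ^ 2 = cr x (fun i => x i ^ 4) i / cr x (fun i => x i ^ 4) 0 := by
      intro i
      rw [div_pow, div_eq_div_iff (pow_ne_zero 2 (hy 0)) (hc 0), hsq i 0]
      ring
    have htop : adjoin K₀ {y 1 / y 0} = ⊤ := by
      apply restrictScalars_injective k
      rw [restrictScalars_top, eq_top_iff, ← h.gen, adjoin_le_iff]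
      have hK : ∀ z ∈ K₀, z ∈ adjoin K₀ {y 1 / y 0} := fun z hz =>
        (adjoin K₀ {y 1 / y 0}).algebraMap_mem ⟨z, hz⟩
      have hw1 : y 1 / y 0 ∈ adjoin K₀ {y 1 / y 0} := subset_adjoin _ _ rfl
      have hw3 : y 2 / y 0 ∈ adjoin K₀ {y 1 / y 0} := by
        have h5 : y 2 / y 0 = -((x 0 / x 2) ^ 2 + (x 1 / x 2) ^ 2 * (y 1 / y 0)) := by
          have h6 := hG
          rw [Fin.sum_univ_three] at h6
          have h7 := hy 0
          field_simp
          linear_combination h6
        rw [h5]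
        exact neg_mem (add_mem (pow_mem (hK _ (hr 0 2)) 2) (mul_mem (pow_mem (hK _ (hr 1 2)) 2) hw1))
      rintro z (⟨i, j, rfl⟩ | ⟨i, j, rfl⟩)
      · exact hK _ (hr i j)
      · exact ratio_mem (hy 0) ((adjoin K₀ {y 1 / y 0}).restrictScalars k) hw1 hw3 i j
    obtain ⟨hfin, hle⟩ := finrank_le_two (k := K₀) (y 1 / y 0) ⟨⟨_, hcr 1 0⟩, (hw2 1).symm⟩ htop
    have hpos : 0 < Module.finrank K₀ K := Module.finrank_pos
    have hne : Module.finrank K₀ K ≠ 1 := fun h1 =>
      hnr _ hind (finrank_eq_one_iff_eq_top.mp h1)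
    have h2 : Module.finrank K₀ K = 2 := by omega
    exact ⟨hind, two_pos, h2⟩
  exact ⟨hdeg, ⟨⟨_, hdeg⟩, fun d ⟨u, hu⟩ => hlow u d hu⟩⟩

end surf

end Pool.Agent.Y199.Gon
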