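import Pool.Agent.Y199.Gon.Pts

set_option autoImplicit false

namespace Pool.Agent.Y199.Gon

open MvPolynomial IntermediateField

universe u

section gen

variable {k K B : Type u} [Field k] [Field K] [Algebra k K] [CommRing B] [Algebra k B]

theorem value_hom (g : B →ₐ[k] K) (P : Poly k) (x y : Fin 3 → B) :
    value P (fun i => g (x i)) (fun i => g (y i)) = g (aeval (Sum.elim x y) P) := by
  have h : (g.comp (aeval (Sum.elim x y) : Poly k →ₐ[k] B)) =
      aeval (Sum.elim (fun i => g (x i)) (fun i => g (y i))) := by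
    apply MvPolynomial.algHom_ext
    rintro (i | i) <;> simp
  rw [value, ← h]; rfl

end gen

section par

variable {k : Type u} [Field k] [IsAlgClosed k]

/-- A generic point given by a parametrisation. -/
theorem exists_ff {S : Set ((Fin 3 → k) × (Fin 3 → k))}
    (r : Fin 3 → MvPolynomial (Fin 3) k) (hne : cr r (fun i => r i ^ 4) ≠ 0)
    (h1 : ∀ (ξ s : Fin 3 → k), (∀ i, s i = aeval ξ (r i)) → cr s (fun i => s i ^ 4) ≠ 0 →
      ((fun i => s i ^ 2), cr s (fun i => s i ^ 4)) ∈ S)
    (h2 : ∀ (P : Poly k) (a b : ℕ), IsBihom P a b →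
      (∀ ξ s : Fin 3 → k, (∀ i, s i = aeval ξ (r i)) →
        value P (fun i => s i ^ 2) (cr s (fun i => s i ^ 4)) = 0) →
      ∀ q ∈ S, value P q.1 q.2 = 0) :
    ∃ (K' : Type u) (_ : Field K') (_ : Algebra k K') (x' y' : Fin 3 → K'),
      IsFunctionField S x' y' := by
  let A := MvPolynomial (Fin 3) k
  let Ω := FractionRing A
  have hinj : Function.Injective (algebraMap A Ω) := IsFractionRing.injective A Ω
  obtain ⟨i₀, hi₀⟩ : ∃ i, cr r (fun i => r i ^ 4) i ≠ 0 := by
    by_contra h'
    push Not at h'
    exact hne (funext h')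
  let g : A →ₐ[k] Ω := IsScalarTower.toAlgHom k A Ω
  have hg : ∀ z, g z = 0 ↔ z = 0 := fun z => by
    constructor
    · intro h
      exact hinj (by rw [map_zero]; exact h)
    · rintro rfl; exact map_zero _
  refine exists_functionField (K := Ω) (x := fun i => g (r i ^ 2))
    (y := fun i => g (cr r (fun i => r i ^ 4) i)) ?_ ?_ ?_
  · intro h0
    have h3 : ∀ i, r i = 0 := by
      intro i
      have := (hg _).mp (congrFun h0 i)
      exact pow_eq_zero_iff (two_ne_zero) |>.mp this
    apply hi₀
    fin_cases i₀ <;> simp [cr, h3]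
  · intro h0
    exact hi₀ ((hg _).mp (congrFun h0 i₀))
  · intro P a b hP
    rw [value_hom g, hg]
    have hev : ∀ ξ : Fin 3 → k,
        aeval ξ (aeval (Sum.elim (fun i => r i ^ 2) (cr r (fun i => r i ^ 4))) P) =
        value P (fun i => (aeval ξ (r i) : k) ^ 2)
          (cr (fun i => (aeval ξ (r i) : k)) (fun i => (aeval ξ (r i) : k) ^ 4)) := by
      intro ξ
      rw [← value_hom]
      congr 1
      · funext i; rw [map_pow]
      · funext i
        fin_cases i <;> simp [cr]
    constructor
    · intro h0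
      refine h2 P a b hP fun ξ s hs => ?_
      have := hev ξ
      rw [h0, map_zero] at this
      have hs' : s = fun i => aeval ξ (r i) := funext hs
      rw [hs', ← this]
    · intro h0
      have hz : aeval (Sum.elim (fun i => r i ^ 2) (cr r (fun i => r i ^ 4))) P *
          cr r (fun i => r i ^ 4) i₀ = 0 := by
        apply MvPolynomial.funext
        intro ξ
        rw [map_zero, ← MvPolynomial.coe_aeval_eq_eval]
        change aeval ξ _ = 0
        rw [map_mul, hev ξ]
        by_cases h3 : (aeval ξ (cr r (fun i => r i ^ 4) i₀) : k) = 0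
        · rw [h3, mul_zero]
        · have h4 : cr (fun i => (aeval ξ (r i) : k)) (fun i => (aeval ξ (r i) : k) ^ 4) i₀ ≠ 0 := by
            intro h5
            apply h3
            rw [← h5]
            fin_cases i₀ <;> simp [cr]
          have h5 := h0 _ (h1 ξ (fun i => aeval ξ (r i)) (fun i => rfl)
            (fun h6 => h4 (congrFun h6 i₀)))
          simp only at h5
          rw [h5, zero_mul]
      exact (mul_eq_zero.mp hz).resolve_right hi₀

end par

section surf

variable {k : Type u} [Field k] [CharP k 2] [IsAlgClosed k]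

theorem value_of_mul {P : Poly k} {a b : ℕ} (hP : IsBihom P a b) {x y c : Fin 3 → k} {l : k}
    (hy : ∀ i, y i = l * c i) (h : value P x c = 0) : value P x y = 0 := by
  have h1 := value_scale hP x c 1 l
  simp only [one_mul] at h1
  rw [h, mul_zero] at h1
  rw [← h1]
  congr 1
  exact funext hy

theorem surf_vanish {P : Poly k} {a b : ℕ} (hP : IsBihom P a b)
    (h : ∀ s : Fin 3 → k, value P (fun i => s i ^ 2) (cr s (fun i => s i ^ 4)) = 0)
    (q : (Fin 3 → k) × (Fin 3 → k)) (hq : q ∈ zeroLocus (eqF k) (eqG k)) :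
    value P q.1 q.2 = 0 := by
  obtain ⟨x, y⟩ := q
  obtain ⟨hx, hy, hF, hG⟩ := hq
  simp only at hx hy hF hG ⊢
  obtain ⟨s, hs⟩ := exists_sqrt x
  have hs0 : s ≠ 0 := by
    rintro rfl
    apply hx
    funext i
    rw [← hs i]; simp
  have hsx : (fun i => s i ^ 2) = x := funext hs
  rw [orth_of_F hs] at hF
  rw [orth_of_G hs] at hG
  by_cases hc : cr s (fun i => s i ^ 4) = 0
  · obtain ⟨c, hc0, hc', -⟩ := prop_of_cr hs0 hc
    obtain ⟨w, hw⟩ := exists_dual hs0
    set v := cr w y with hv
    have hvs : ∀ i, cr v s i = y i := cr_cr w y s hw (by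
      rw [← hF]; exact Finset.sum_congr rfl fun i _ => mul_comm _ _)
    let xe : Fin 3 → Polynomial k := fun i =>
      Polynomial.C (s i ^ 2) + Polynomial.X ^ 2 * Polynomial.C (v i ^ 2)
    let ye : Fin 3 → Polynomial k := fun i =>
      Polynomial.C (c * y i) + Polynomial.X ^ 3 * (Polynomial.C (cr s (fun i => v i ^ 4) i) +
        Polynomial.X * Polynomial.C (cr v (fun i => v i ^ 4) i))
    let R : Polynomial k := aeval (Sum.elim xe ye) P
    have hR : ∀ e : k, Polynomial.aeval e R =
        value P (fun i => Polynomial.aeval e (xe i)) (fun i => Polynomial.aeval e (ye i)) :=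
      fun e => (value_hom (Polynomial.aeval e) P xe ye).symm
    have hR0 : Polynomial.X * R = 0 := by
      apply Polynomial.funext
      intro e
      rw [Polynomial.eval_zero, Polynomial.eval_mul, Polynomial.eval_X,
        ← Polynomial.coe_aeval_eq_eval]
      change e * Polynomial.aeval e R = 0
      by_cases he : e = 0
      · rw [he, zero_mul]
      rw [hR e]
      have h1 := h (fun i => s i + e * v i)
      have h2 : (fun i => (s i + e * v i) ^ 2) = fun i => Polynomial.aeval e (xe i) := by
        funext i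
        have h2 : (2 : k) = 0 := by exact_mod_cast CharP.cast_eq_zero k 2
        simp only [xe, map_add, map_mul, map_pow, Polynomial.aeval_X, Polynomial.aeval_C,
          Algebra.algebraMap_self_apply]
        linear_combination (s i * e * v i) * h2
      have h3 : cr (fun i => s i + e * v i) (fun i => (s i + e * v i) ^ 4) =
          fun i => e * Polynomial.aeval e (ye i) := by
        have h2 : (2 : k) = 0 := by exact_mod_cast CharP.cast_eq_zero k 2
        have h4 : ∀ i, (s i + e * v i) ^ 4 = c * s i + e ^ 4 * v i ^ 4 := by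
          intro i
          rw [← hc' i]
          linear_combination (2 * s i ^ 3 * e * v i + 3 * s i ^ 2 * (e * v i) ^ 2 +
            2 * s i * (e * v i) ^ 3) * h2
        simp only [h4]
        have h5 : v 1 * s 2 - v 2 * s 1 = y 0 := hvs 0
        have h6 : v 2 * s 0 - v 0 * s 2 = y 1 := hvs 1
        have h7 : v 0 * s 1 - v 1 * s 0 = y 2 := hvs 2
        funext i
        fin_cases i
        · simp [cr, ye, ← h5]; ring
        · simp [cr, ye, ← h6]; ring
        · simp [cr, ye, ← h7]; ring
      rw [h2, h3] at h1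
      have h4 := value_scale hP (fun i => Polynomial.aeval e (xe i))
        (fun i => Polynomial.aeval e (ye i)) 1 e
      simp only [one_mul] at h4
      rw [h4, one_pow, one_mul] at h1
      rw [(mul_eq_zero.mp h1).resolve_left (pow_ne_zero _ he), mul_zero]
    have hR1 : R = 0 := (mul_eq_zero.mp hR0).resolve_left Polynomial.X_ne_zero
    have hR2 := hR 0
    rw [hR1, map_zero] at hR2
    have h2 : (fun i => Polynomial.aeval (0 : k) (xe i)) = x := by
      funext i
      simp [xe, hs i]
    have h3 : (fun i => Polynomial.aeval (0 : k) (ye i)) = fun i => c * y i := by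
      funext i
      simp [ye]
    rw [h2, h3] at hR2
    refine value_of_mul hP (l := c⁻¹) (c := fun i => c * y i) (fun i => ?_) hR2.symm
    field_simp
  · obtain ⟨l, hl⟩ := eq_mul_cr hc hF hG
    refine value_of_mul hP hl ?_
    rw [← hsx]
    exact h s

/-- The surface is irreducible. -/
theorem surf_exists : ∃ (K' : Type u) (_ : Field K') (_ : Algebra k K') (x' y' : Fin 3 → K'),
      IsFunctionField (zeroLocus (eqF k) (eqG k)) x' y' := by
  refine exists_ff (fun i => X i) ?_ ?_ ?_
  · intro h0
    have h1 := congrArg (aeval (![0, 1, 0] : Fin 3 → k)) (congrFun h0 0)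
    have h2 : (X 1 * X 2 ^ 4 - X 2 * X 1 ^ 4 : MvPolynomial (Fin 3) k) = 0 := congrFun h0 0
    obtain ⟨z, hz⟩ : ∃ z : k, z * 1 ^ 4 - 1 * z ^ 4 ≠ 0 := by
      by_contra hcon
      push Not at hcon
      have h3 : (Polynomial.X - Polynomial.X ^ 4 : Polynomial k) = 0 := by
        apply Polynomial.funext
        intro z
        have := hcon z
        simp only [Polynomial.eval_sub, Polynomial.eval_X, Polynomial.eval_pow,
          Polynomial.eval_zero]
        linear_combination this
      have h4 := congrArg (fun p => Polynomial.coeff p 1) h3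
      simp [Polynomial.coeff_X, Polynomial.coeff_X_pow] at h4
    have h3 := congrArg (eval ![0, z, 1]) h2
    simp at h3
    apply hz
    linear_combination h3
  · intro ξ s hs hc
    obtain ⟨i₀, hi₀⟩ : ∃ i, cr s (fun i => s i ^ 4) i ≠ 0 := by
      by_contra h'
      push Not at h'
      exact hc (funext h')
    refine mem_zl ?_ hc ((orth_of_F (s := s) fun i => rfl).mpr (cr_orth_left _ _)) ?_
    · intro h0
      have h3 : ∀ i, s i = 0 := fun i => pow_eq_zero_iff (two_ne_zero) |>.mp (congrFun h0 i)
      apply hi₀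
      fin_cases i₀ <;> simp [cr, h3]
    · rw [orth_of_G (s := s) fun i => rfl]
      exact cr_orth_right s (fun i => s i ^ 4)
  · intro P a b hP h q hq
    exact surf_vanish hP (fun s => h s s fun i => by simp) q hq

end surf

section line

variable {k : Type u} [Field k] [CharP k 2] [IsAlgClosed k]

/-- Condition on a line: it contains no point over the field with four elements. -/
def Good (a : Fin 3 → k) : Prop :=
  ∀ s : Fin 3 → k, s ≠ 0 → ∑ i, a i * s i ^ 2 = 0 → cr s (fun i => s i ^ 4) ≠ 0

theorem line_exists {a : Fin 3 → k} (ha0 : a ≠ 0) (ha : Good a) :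
    ∃ (K' : Type u) (_ : Field K') (_ : Algebra k K') (x' y' : Fin 3 → K'),
      IsFunctionField (overLine a) x' y' := by
  obtain ⟨α, hα⟩ := exists_sqrt a
  have hα0 : α ≠ 0 := by
    rintro rfl
    apply ha0
    funext i
    rw [← hα i]; simp
  obtain ⟨w, hw⟩ := exists_dual hα0
  have horth : ∀ s : Fin 3 → k, ∑ i, a i * s i ^ 2 = 0 ↔ ∑ i, s i * α i = 0 := by
    intro s
    rw [← pow_eq_zero_iff (two_ne_zero) (a := ∑ i, s i * α i), sq_sum]
    have : ∀ i, (s i * α i) ^ 2 = a i * s i ^ 2 := fun i => by rw [← hα i]; ring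
    simp only [this]
  let r : Fin 3 → MvPolynomial (Fin 3) k := cr (fun i => X i) (fun i => C (α i))
  have hr : ∀ ξ i, (aeval ξ (r i) : k) = cr ξ α i := by
    intro ξ i
    fin_cases i <;> simp [r, cr]
  have hpar : ∀ s : Fin 3 → k, ∑ i, s i * α i = 0 → ∃ ξ, ∀ i, s i = aeval ξ (r i) := by
    intro s hs
    refine ⟨cr w s, fun i => ?_⟩
    rw [hr, cr_cr w s α hw hs]
  refine exists_ff r ?_ ?_ ?_
  · intro h0
    obtain ⟨s, hs0, hs⟩ := exists_orth α
    have hs' : ∑ i, s i * α i = 0 := by
      rw [← hs]; exact Finset.sum_congr rfl fun i _ => mul_comm _ _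
    obtain ⟨ξ, hξ⟩ := hpar s hs'
    apply ha s hs0 ((horth s).mpr hs')
    funext i
    have h1 : (aeval ξ (cr r (fun i => r i ^ 4) i) : k) = cr s (fun i => s i ^ 4) i := by
      fin_cases i <;> simp [cr, hξ]
    rw [← h1, h0]
    simp
  · intro ξ s hs hc
    obtain ⟨i₀, hi₀⟩ : ∃ i, cr s (fun i => s i ^ 4) i ≠ 0 := by
      by_contra h'
      push Not at h'
      exact hc (funext h')
    refine ⟨mem_zl ?_ hc ((orth_of_F (s := s) fun i => rfl).mpr (cr_orth_left _ _)) ?_, ?_⟩
    · intro h0
      have h3 : ∀ i, s i = 0 := fun i => pow_eq_zero_iff (two_ne_zero) |>.mp (congrFun h0 i)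
      apply hi₀
      fin_cases i₀ <;> simp [cr, h3]
    · rw [orth_of_G (s := s) fun i => rfl]
      exact cr_orth_right s (fun i => s i ^ 4)
    · change ∑ i, a i * s i ^ 2 = 0
      rw [horth]
      have h1 := cr_orth_right ξ α
      rw [← h1]
      refine Finset.sum_congr rfl fun i _ => ?_
      rw [hs i, hr, mul_comm]
  · intro P c b hP h q hq
    obtain ⟨x, y⟩ := q
    obtain ⟨⟨hx, hy, hF, hG⟩, hL⟩ := hq
    simp only at hx hy hF hG hL ⊢
    obtain ⟨s, hs⟩ := exists_sqrt x
    have hs0 : s ≠ 0 := by
      rintro rfl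
      apply hx
      funext i
      rw [← hs i]; simp
    have hsx : (fun i => s i ^ 2) = x := funext hs
    rw [orth_of_F hs] at hF
    rw [orth_of_G hs] at hG
    have hL' : ∑ i, a i * s i ^ 2 = 0 := by
      rw [← hL]
      exact Finset.sum_congr rfl fun i _ => by rw [hs i]
    have hc := ha s hs0 hL'
    obtain ⟨l, hl⟩ := eq_mul_cr hc hF hG
    refine value_of_mul hP hl ?_
    rw [← hsx]
    obtain ⟨ξ, hξ⟩ := hpar s ((horth s).mp hL')
    exact h ξ s hξ

end line

end Pool.Agent.Y199.Gon
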