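import Pool.Agent.Y199.Gon.Deg

set_option autoImplicit false

namespace Pool.Agent.Y199.Gon

open MvPolynomial IntermediateField

universe u

section insep

variable {k K : Type u} [Field k] [CharP k 2] [IsAlgClosed k] [Field K] [Algebra k K]

theorem poly_split (p : Polynomial k) : ∃ a b : Polynomial k, p = a ^ 2 + Polynomial.X * b ^ 2 := by
  have h2 : (2 : Polynomial k) = 0 := by exact_mod_cast CharP.cast_eq_zero (Polynomial k) 2
  induction p using Polynomial.induction_on' with
  | add p q hp hq =>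
    obtain ⟨a, b, rfl⟩ := hp
    obtain ⟨c, d, rfl⟩ := hq
    refine ⟨a + c, b + d, ?_⟩
    linear_combination -(a * c + Polynomial.X * b * d) * h2
  | monomial n c =>
    obtain ⟨e, he⟩ := IsAlgClosed.exists_pow_nat_eq c (show 0 < 2 by norm_num)
    rcases Nat.even_or_odd' n with ⟨m, rfl | rfl⟩
    · refine ⟨Polynomial.monomial m e, 0, ?_⟩
      rw [Polynomial.monomial_pow, he, mul_comm m 2]; simp
    · refine ⟨0, Polynomial.monomial m e, ?_⟩
      rw [Polynomial.monomial_pow, he, mul_comm m 2, Polynomial.X_mul_monomial]; simp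

theorem field_split {s g : K} (hg : g ∈ adjoin k {s}) :
    ∃ a ∈ adjoin k {s}, ∃ b ∈ adjoin k {s}, g = a ^ 2 + s * b ^ 2 := by
  obtain ⟨p, q, rfl⟩ := (mem_adjoin_simple_iff k g).mp hg
  have hmem : ∀ r : Polynomial k, Polynomial.aeval s r ∈ adjoin k {s} := fun r => by
    have hs : s ∈ adjoin k {s} := mem_adjoin_simple_self k s
    have : Polynomial.aeval s r = ((Polynomial.aeval (⟨s, hs⟩ : adjoin k {s}) r : adjoin k {s}) : K) := by
      have := Polynomial.aeval_algebraMap_apply (A := adjoin k {s}) K (⟨s, hs⟩ : adjoin k {s}) r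
      exact this
    rw [this]
    exact SetLike.coe_mem _
  obtain ⟨a, b, hab⟩ := poly_split (p * q)
  by_cases hq : Polynomial.aeval s q = 0
  · refine ⟨0, zero_mem _, 0, zero_mem _, ?_⟩
    rw [hq]; simp
  refine ⟨Polynomial.aeval s a / Polynomial.aeval s q, div_mem (hmem _) (hmem _),
    Polynomial.aeval s b / Polynomial.aeval s q, div_mem (hmem _) (hmem _), ?_⟩
  have := congrArg (Polynomial.aeval s) hab
  simp only [map_mul, map_add, map_pow, Polynomial.aeval_X] at this
  field_simp
  linear_combination this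

/-- A purely inseparable extension of height one of `k(s)` is rational. -/
theorem insep_rational {s : K} (hs : Transcendental k s) {W : Set K}
    (hW : ∀ w ∈ W, w ^ 2 ∈ adjoin k {s}) (htop : adjoin k (insert s W) = ⊤) :
    ∃ f : K, Transcendental k f ∧ adjoin k {f} = ⊤ := by
  haveI := charP_of k K
  have h2 : (2 : K) = 0 := by exact_mod_cast CharP.cast_eq_zero K 2
  by_cases hall : ∀ w ∈ W, w ∈ adjoin k {s}
  · refine ⟨s, hs, ?_⟩
    rw [eq_top_iff, ← htop, adjoin_le_iff]
    rintro z (rfl | hz)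
    · exact mem_adjoin_simple_self k _
    · exact hall z hz
  · push Not at hall
    obtain ⟨w, hw, hws⟩ := hall
    obtain ⟨a, ha, b, hb, hab⟩ := field_split (hW w hw)
    have hb0 : b ≠ 0 := by
      rintro rfl
      apply hws
      have h3 : (w - a) ^ 2 = 0 := by linear_combination hab + (a ^ 2 - w * a) * h2
      have h4 : w = a := sub_eq_zero.mp (pow_eq_zero_iff (two_ne_zero) |>.mp h3)
      rw [h4]; exact ha
    have hf2 : ((w + a) / b) ^ 2 = s := by
      field_simp
      linear_combination hab + (a ^ 2 + w * a) * h2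
    set f := (w + a) / b with hf
    have hsf : s ∈ adjoin k {f} := by
      rw [← hf2]; exact pow_mem (mem_adjoin_simple_self k f) 2
    have hle : adjoin k {s} ≤ adjoin k {f} := adjoin_le_iff.mpr (by
      rintro z rfl; exact hsf)
    refine ⟨f, ?_, ?_⟩
    · intro h3
      apply hs
      rw [← hf2]
      exact h3.pow 2
    · rw [eq_top_iff, ← htop, adjoin_le_iff]
      rintro z (rfl | hz)
      · exact hsf
      · obtain ⟨c, hc, d, hd, hcd⟩ := field_split (hW z hz)
        have h3 : (z - (c + f * d)) ^ 2 = 0 := by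
          rw [← hf2] at hcd
          linear_combination hcd + (c ^ 2 + c * f * d + f ^ 2 * d ^ 2 - z * (c + f * d)) * h2
        have h4 : z = c + f * d := sub_eq_zero.mp (pow_eq_zero_iff (two_ne_zero) |>.mp h3)
        rw [h4]
        exact add_mem (hle hc) (mul_mem (mem_adjoin_simple_self k f) (hle hd))

end insep

section line

variable {k K : Type u} [Field k] [CharP k 2] [IsAlgClosed k] [Field K] [Algebra k K]

theorem gon_one {f : K} (hf : Transcendental k f) (htop : adjoin k {f} = ⊤) :
    IsLeast {d | ∃ u : Fin 1 → K, IsDominantOfDegree k u d} 1 := by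
  refine ⟨⟨![f], ?_, one_pos, ?_⟩, fun d ⟨u, hu⟩ => hu.2.1⟩
  · rw [algebraicIndependent_unique_type_iff]
    exact hf
  · have h1 : Set.range ![f] = {f} := by simp
    rw [h1, htop]
    exact finrank_eq_one_iff_eq_top.mpr rfl

theorem line_gon {a : Fin 3 → k} (ha : ∀ i, a i ≠ 0) {x y : Fin 3 → K}
    (h : IsFunctionField (overLine a) x y) :
    IsLeast {d | ∃ u : Fin 1 → K, IsDominantOfDegree k u d} 1 := by
  haveI := charP_of k K
  have hsub : overLine a ⊆ zeroLocus (eqF k) (eqG k) := fun q hq => hq.1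
  obtain ⟨hF, hG, hsq⟩ := ff_sq h hsub
  -- a point on the line with given coordinates
  have hpt : ∀ s t : k, (s ≠ 0 ∨ t ≠ 0) → ∃ q ∈ overLine a, q.1 1 = s ∧ q.1 2 = t := by
    intro s t hst
    have h1 : (![-(a 1 * s + a 2 * t) / a 0, s, t] : Fin 3 → k) ≠ 0 := by
      intro h2
      have h3 := congrFun h2 1
      have h4 := congrFun h2 2
      simp at h3 h4
      rcases hst with h5 | h5
      · exact h5 h3
      · exact h5 h4
    obtain ⟨y', hy'⟩ := exists_pt h1
    refine ⟨_, ⟨hy', ?_⟩, rfl, rfl⟩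
    have h0 := ha 0
    rw [Fin.sum_univ_three]
    simp only [Matrix.cons_val_zero, Matrix.cons_val_one, Matrix.cons_val]
    field_simp
    ring
  have hlin : ∀ b c : k, (b ≠ 0 ∨ c ≠ 0) →
      algebraMap k K b * x 1 + algebraMap k K c * x 2 ≠ 0 := by
    intro b c hbc h0
    have hp : (C b * X 1 + C c * X 2 : MvPolynomial (Fin 3) k).IsHomogeneous 1 :=
      IsHomogeneous.add (by simpa using (isHomogeneous_C _ b).mul (isHomogeneous_X k (1 : Fin 3)))
        (by simpa using (isHomogeneous_C _ c).mul (isHomogeneous_X k (2 : Fin 3)))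
    have h1 := (vanish_x h hp).mp (by simpa using h0)
    rcases hbc with hb | hc
    · obtain ⟨q, hq, hq1, hq2⟩ := hpt 1 0 (Or.inl one_ne_zero)
      have := h1 q hq
      simp [hq1, hq2] at this
      exact hb this
    · obtain ⟨q, hq, hq1, hq2⟩ := hpt 0 1 (Or.inr one_ne_zero)
      have := h1 q hq
      simp [hq1, hq2] at this
      exact hc this
  have hx1 : x 1 ≠ 0 := by
    have := hlin 1 0 (Or.inl one_ne_zero)
    simpa using this
  have hx2 : x 2 ≠ 0 := by
    have := hlin 0 1 (Or.inr one_ne_zero)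
    simpa using this
  have hL : ∑ i, algebraMap k K (a i) * x i = 0 := by
    have hp : (∑ i, C (a i) * X i : MvPolynomial (Fin 3) k).IsHomogeneous 1 :=
      IsHomogeneous.sum _ _ _ fun i _ => by
        simpa using (isHomogeneous_C _ (a i)).mul (isHomogeneous_X k i)
    have h1 := (vanish_x h hp).mpr fun q hq => by
      have := hq.2
      simpa using this
    simpa using h1
  set s : K := x 1 / x 2 with hs
  have hxs : x 1 = s * x 2 := by rw [hs]; field_simp
  have hstr : Transcendental k s := by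
    intro halg
    have h1 := IsAlgClosed.degree_eq_one_of_irreducible k (minpoly.irreducible halg.isIntegral)
    obtain ⟨c, hc⟩ := minpoly.mem_range_of_degree_eq_one k s h1
    refine hlin 1 (-c) (Or.inl one_ne_zero) ?_
    rw [hxs, ← hc, map_one, map_neg]
    ring
  have hx0e : algebraMap k K (a 0) * x 0 = -(algebraMap k K (a 1) * x 1 +
      algebraMap k K (a 2) * x 2) := by
    rw [Fin.sum_univ_three] at hL
    linear_combination hL
  have hx0 : x 0 ≠ 0 := by
    intro h0
    rw [h0, mul_zero] at hx0e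
    exact hlin (a 1) (a 2) (Or.inl (ha 1)) (by linear_combination hx0e)
  have ha0 : algebraMap k K (a 0) ≠ 0 := by
    rw [Ne, map_eq_zero]; exact ha 0
  set L := adjoin k {s} with hLdef
  have hsL : s ∈ L := mem_adjoin_simple_self k s
  have hden : algebraMap k K (a 1) * s + algebraMap k K (a 2) ≠ 0 := by
    intro h0
    refine hlin (a 1) (a 2) (Or.inl (ha 1)) ?_
    rw [hxs]
    linear_combination x 2 * h0
  have h20 : x 2 / x 0 = -algebraMap k K (a 0) / (algebraMap k K (a 1) * s +
      algebraMap k K (a 2)) := by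
    rw [div_eq_div_iff hx0 hden]
    rw [hxs] at hx0e
    linear_combination hx0e
  have h20L : x 2 / x 0 ∈ L := by
    rw [h20]
    exact div_mem (neg_mem (L.algebraMap_mem _)) (add_mem (mul_mem (L.algebraMap_mem _) hsL)
      (L.algebraMap_mem _))
  have h10L : x 1 / x 0 ∈ L := by
    have : x 1 / x 0 = s * (x 2 / x 0) := by rw [hxs]; ring
    rw [this]
    exact mul_mem hsL h20L
  have hr := ratio_mem hx0 L h10L h20L
  have hcr0 : cr x (fun i => x i ^ 4) 0 ≠ 0 := by
    intro h0
    have h1 : x 1 * x 2 ^ 4 - x 2 * x 1 ^ 4 = 0 := h0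
    rw [hxs] at h1
    have h2 : (s - s ^ 4) * x 2 ^ 5 = 0 := by linear_combination h1
    have h3 := (mul_eq_zero.mp h2).resolve_right (pow_ne_zero 5 hx2)
    apply hstr
    refine ⟨Polynomial.X - Polynomial.X ^ 4, ?_, by simpa using h3⟩
    intro h4
    have h5 := congrArg (fun p => Polynomial.coeff p 1) h4
    simp [Polynomial.coeff_X, Polynomial.coeff_X_pow] at h5
  have hy0 : y 0 ≠ 0 := by
    intro h0
    apply h.y_ne
    funext i
    have h1 := hsq i 0
    rw [h0] at h1
    simp only [ne_eq, OfNat.ofNat_ne_zero, not_false_eq_true, zero_pow, zero_mul] at h1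
    exact pow_eq_zero_iff (two_ne_zero) |>.mp ((mul_eq_zero.mp h1).resolve_right hcr0)
  have hcr : ∀ i j, cr x (fun i => x i ^ 4) i / cr x (fun i => x i ^ 4) j ∈ L := by
    have h3 : ∀ i, cr x (fun i => x i ^ 4) i / x 0 ^ 5 ∈ L := by
      intro i
      have h4 : ∀ i j, (x i * x j ^ 4 - x j * x i ^ 4) / x 0 ^ 5 ∈ L := by
        intro i j
        have h5 : (x i * x j ^ 4 - x j * x i ^ 4) / x 0 ^ 5 =
            (x i / x 0) * (x j / x 0) ^ 4 - (x j / x 0) * (x i / x 0) ^ 4 := by
          field_simp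
        rw [h5]
        exact sub_mem (mul_mem (hr i 0) (pow_mem (hr j 0) 4))
          (mul_mem (hr j 0) (pow_mem (hr i 0) 4))
      fin_cases i
      · exact h4 1 2
      · exact h4 2 0
      · exact h4 0 1
    intro i j
    have h4 := div_mem (h3 i) (h3 j)
    rwa [div_div_div_cancel_right₀ (pow_ne_zero 5 hx0)] at h4
  have hw2 : ∀ i, (y i / y 0) ^ 2 ∈ L := by
    intro i
    have : (y i / y 0) ^ 2 = cr x (fun i => x i ^ 4) i / cr x (fun i => x i ^ 4) 0 := by
      rw [div_pow, div_eq_div_iff (pow_ne_zero 2 hy0) hcr0, hsq i 0]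
      ring
    rw [this]
    exact hcr i 0
  obtain ⟨f, hf, hftop⟩ := insep_rational hstr (W := {z | ∃ i, z = y i / y 0})
    (by rintro w ⟨i, rfl⟩; exact hw2 i) (by
      rw [eq_top_iff, ← h.gen, adjoin_le_iff]
      have hle : L ≤ adjoin k (insert s {z | ∃ i, z = y i / y 0}) := adjoin_le_iff.mpr (by
        rintro z rfl
        exact subset_adjoin _ _ (Set.mem_insert _ _))
      have hy' : ∀ i, y i / y 0 ∈ adjoin k (insert s {z | ∃ i, z = y i / y 0}) := fun i =>
        subset_adjoin _ _ (Set.mem_insert_of_mem s ⟨i, rfl⟩)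
      rintro z (⟨i, j, rfl⟩ | ⟨i, j, rfl⟩)
      · exact hle (hr i j)
      · exact ratio_mem hy0 _ (hy' 1) (hy' 2) i j)
  exact gon_one hf hftop

/-- The nonzero vectors over the field with four elements. -/
def pts4 (k : Type u) [Field k] : Set (Fin 3 → k) := {s | (∀ i, s i ^ 4 = s i) ∧ s ≠ 0}

omit [CharP k 2] [IsAlgClosed k] in
theorem pts4_finite : (pts4 k).Finite := by
  have h1 : {z : k | z ^ 4 = z}.Finite := by
    have h2 : (Polynomial.X ^ 4 - Polynomial.X : Polynomial k) ≠ 0 := by
      intro h4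
      have h5 := congrArg (fun p => Polynomial.coeff p 1) h4
      simp [Polynomial.coeff_X, Polynomial.coeff_X_pow] at h5
    refine (Polynomial.finite_setOfPred_isRoot h2).subset ?_
    intro z hz
    simp only [Set.mem_ofPred_eq, Polynomial.IsRoot.def, Polynomial.eval_sub, Polynomial.eval_pow,
      Polynomial.eval_X] at hz ⊢
    rw [hz, sub_self]
  refine (Set.Finite.pi' (fun _ : Fin 3 => h1)).subset ?_
  intro s hs i
  exact hs.1 i

/-- The discriminant of the bad lines. -/
noncomputable def badPoly (k : Type u) [Field k] : MvPolynomial (Fin 3) k :=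
  ∏ s ∈ (pts4_finite (k := k)).toFinset, ∑ i, C (s i ^ 2) * X i

omit [CharP k 2] [IsAlgClosed k] in
theorem badPoly_homogeneous : ∃ n, (badPoly k).IsHomogeneous n := by
  refine ⟨∑ s ∈ (pts4_finite (k := k)).toFinset, 1,
    IsHomogeneous.prod (pts4_finite (k := k)).toFinset _ (fun _ => 1) fun s _ => ?_⟩
  refine IsHomogeneous.sum _ _ 1 fun i _ => ?_
  have := (isHomogeneous_C (Fin 3) (s i ^ 2)).mul (isHomogeneous_X k i)
  rwa [zero_add] at this

omit [CharP k 2] [IsAlgClosed k] in
theorem badPoly_ne : badPoly k ≠ 0 := by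
  classical
  rw [badPoly, Finset.prod_ne_zero_iff]
  intro s hs h0
  rw [Set.Finite.mem_toFinset] at hs
  apply hs.2
  funext i
  have h1 := congrArg (eval (fun j => if j = i then (1 : k) else 0)) h0
  simp at h1
  exact h1

omit [CharP k 2] [IsAlgClosed k] in
theorem badPoly_eval {a : Fin 3 → k} (ha : eval a (badPoly k) ≠ 0) {s : Fin 3 → k}
    (hs : s ∈ pts4 k) : ∑ i, s i ^ 2 * a i ≠ 0 := by
  rw [badPoly, eval_prod, Finset.prod_ne_zero_iff] at ha
  have := ha s (by rwa [Set.Finite.mem_toFinset])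
  simpa using this

omit [CharP k 2] [IsAlgClosed k] in
theorem bad_ne {a : Fin 3 → k} (ha : eval a (badPoly k) ≠ 0) (i : Fin 3) : a i ≠ 0 := by
  classical
  have := badPoly_eval ha (s := fun j => if j = i then (1 : k) else 0) ⟨fun j => by
    by_cases h : j = i <;> simp [h], fun h => by
      have := congrFun h i
      simp at this⟩
  simpa using this

omit [CharP k 2] [IsAlgClosed k] in
theorem bad_good {a : Fin 3 → k} (ha : eval a (badPoly k) ≠ 0) : Good a := by
  intro s hs hsum hc
  obtain ⟨c, hc, hc', e, s', he, hs0, hse, hs4⟩ := prop_of_cr hs hc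
  refine badPoly_eval ha (s := s') ⟨hs4, hs0⟩ ?_
  have h1 : e ^ 2 * ∑ i, s' i ^ 2 * a i = 0 := by
    rw [← hsum, Finset.mul_sum]
    refine Finset.sum_congr rfl fun i _ => ?_
    rw [hse i]; ring
  exact (mul_eq_zero.mp h1).resolve_left (pow_ne_zero 2 he)

end line

end Pool.Agent.Y199.Gon
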