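import Pool.Agent.Y199.Gon.Core

set_option autoImplicit false

namespace Pool.Agent.Y199.Gon

open Polynomial IntermediateField
open scoped algebraAdjoinAdjoin

universe u

variable {k F K : Type u} [Field k] [Field F] [Field K] [Algebra k F] [Algebra k K] [Algebra F K]
  [IsScalarTower k F K]

theorem unimod (t : K) (ht : Transcendental F t) (htop : F⟮t⟯ = ⊤) {x : Fin 3 → K} (hx : x ≠ 0) :
    ∃ (c : K) (x' s : Fin 3 → F[X]), c ≠ 0 ∧ (∀ i, x i = c * aeval t (x' i)) ∧
      ∑ i, s i * x' i = 1 := by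
  letI : Algebra F[X] K := (aeval t : F[X] →ₐ[F] K).toRingHom.toAlgebra
  have halg : ∀ f : F[X], algebraMap F[X] K f = aeval t f := fun f => rfl
  have hinj : Function.Injective (algebraMap F[X] K) := by
    have := transcendental_iff_injective.mp ht
    exact this
  haveI : FaithfulSMul F[X] K := (faithfulSMul_iff_algebraMap_injective _ _).mpr hinj
  haveI : IsFractionRing F[X] K := by
    refine IsFractionRing.of_field F[X] K fun z => ?_
    have hz : z ∈ F⟮t⟯ := by rw [htop]; trivial
    obtain ⟨r, s, hrs⟩ := (IntermediateField.mem_adjoin_simple_iff F z).mp hz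
    exact ⟨r, s, by rw [halg, halg, hrs]⟩
  exact exists_unimod hx

theorem sum_sq {R : Type u} [CommRing R] [CharP R 2] {s y : Fin 3 → R} (h : ∑ i, s i * y i = 1) :
    ∑ i, s i ^ 2 * y i ^ 2 = 1 := by
  have := congrArg (frobenius R 2) h
  rw [map_sum, map_one] at this
  rw [← this]
  refine Finset.sum_congr rfl fun i _ => ?_
  rw [frobenius_def, mul_pow]

theorem der_rel {R : Type u} [CommRing R] [CharP R 2] [Algebra k R] (D : Derivation k R R)
    {x y : Fin 3 → R} (h : ∑ i, x i * y i ^ 2 = 0) : ∑ i, D (x i) * y i ^ 2 = 0 := by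
  have := congrArg D h
  rw [map_sum, map_zero] at this
  rw [← this]
  refine Finset.sum_congr rfl fun i _ => ?_
  rw [Derivation.leibniz, Derivation.leibniz_pow]
  have h2 : (2 : R) = 0 := by exact_mod_cast CharP.cast_eq_zero R 2
  simp only [smul_eq_mul, nsmul_eq_mul, Nat.cast_ofNat, h2]
  ring

/-- the multiplier of a derivation -/
theorem exists_mult {R : Type u} [CommRing R] [CharP R 2] [Algebra k R] (D : Derivation k R R)
    {x y s : Fin 3 → R} (h : ∑ i, x i * y i ^ 2 = 0) (hs : ∑ i, s i * y i = 1) :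
    ∃ μ : R, ∀ i, cr x (fun i => D (x i)) i = μ * y i ^ 2 :=
  ⟨_, fun i => par (s := fun i => s i ^ 2) (z := fun i => y i ^ 2)
    (fun i j => cr_par h (der_rel D h) i j) (sum_sq hs) i⟩

theorem ratio_kill (E : Derivation k K K) {x x' : Fin 3 → K} {c : K}
    (hx' : ∀ i, x i = c * x' i) (h : ∀ i, cr x' (fun i => E (x' i)) i = 0) (i j : Fin 3) :
    E (x i / x j) = 0 := by
  by_cases hj : x j = 0
  · rw [hj, div_zero, map_zero]
  have hc : c ≠ 0 := by rintro rfl; exact hj (by rw [hx' j, zero_mul])
  have hj' : x' j ≠ 0 := by intro h0; exact hj (by rw [hx' j, h0, mul_zero])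
  have h1 : x i / x j = x' i / x' j := by
    rw [hx' i, hx' j]; field_simp
  have h2 : x' i * E (x' j) = x' j * E (x' i) := by
    have h3 : x' 1 * E (x' 2) - x' 2 * E (x' 1) = 0 := h 0
    have h4 : x' 2 * E (x' 0) - x' 0 * E (x' 2) = 0 := h 1
    have h5 : x' 0 * E (x' 1) - x' 1 * E (x' 0) = 0 := h 2
    fin_cases i <;> fin_cases j <;> simp
    · linear_combination h5
    · linear_combination -h4
    · linear_combination -h5
    · linear_combination h3
    · linear_combination h4
    · linear_combination -h3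
  rw [h1, Derivation.leibniz_div]
  have h6 : x' j • E (x' i) - x' i • E (x' j) = 0 := by
    rw [smul_eq_mul, smul_eq_mul, h2, sub_self]
  rw [h6, smul_zero]

theorem cr_comb {R : Type u} [CommRing R] (x d e : Fin 3 → R) (a b : R) (i : Fin 3) :
    cr x (fun i => a * d i + b * e i) i = a * cr x d i + b * cr x e i := by
  fin_cases i <;> simp [cr] <;> ring

theorem cr_map {R S : Type u} [CommRing R] [CommRing S] (f : R →+* S) (x d : Fin 3 → R)
    (i : Fin 3) : cr (fun i => f (x i)) (fun i => f (d i)) i = f (cr x d i) := by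
  fin_cases i <;> simp [cr]

theorem exists_kill [CharP K 2] (v : K) (hv : Transcendental F v) (htop : F⟮v⟯ = ⊤)
    (δ : Derivation k F F) (u : F) (hu : δ u = 1) {x y : Fin 3 → K} (hx : x ≠ 0) (hy : y ≠ 0)
    (hF : ∑ i, x i * y i ^ 2 = 0) (hG : ∑ i, x i ^ 2 * y i = 0) :
    ∃ E : Derivation k K K, E ≠ 0 ∧ (∀ i j, E (x i / x j) = 0) ∧ (∀ i j, E (y i / y j) = 0) := by
  haveI : CharP F 2 := (RingHom.charP_iff (algebraMap F K) (algebraMap F K).injective 2).mpr
    inferInstance
  haveI : CharP F[X] 2 := inferInstance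
  have hinj : Function.Injective (aeval v : F[X] →ₐ[F] K) := transcendental_iff_injective.mp hv
  obtain ⟨c, x', s, hc, hxc, hs⟩ := unimod v hv htop hx
  obtain ⟨e, y', t, he, hye, ht⟩ := unimod v hv htop hy
  have hF' : ∑ i, x' i * y' i ^ 2 = 0 := by
    apply hinj
    rw [map_zero, map_sum]
    have h1 : c * e ^ 2 * ∑ i, aeval v (x' i * y' i ^ 2) = 0 := by
      rw [← hF, Finset.mul_sum]
      refine Finset.sum_congr rfl fun i _ => ?_
      rw [hxc i, hye i, map_mul, map_pow]; ring
    exact (mul_eq_zero.mp h1).resolve_left (mul_ne_zero hc (pow_ne_zero 2 he))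
  have hG' : ∑ i, y' i * x' i ^ 2 = 0 := by
    apply hinj
    rw [map_zero, map_sum]
    have h1 : c ^ 2 * e * ∑ i, aeval v (y' i * x' i ^ 2) = 0 := by
      rw [← hG, Finset.mul_sum]
      refine Finset.sum_congr rfl fun i _ => ?_
      rw [hxc i, hye i, map_mul, map_pow]; ring
    exact (mul_eq_zero.mp h1).resolve_left (mul_ne_zero (pow_ne_zero 2 hc) he)
  have hx0 : x' ≠ 0 := by rintro rfl; simp at hs
  have hy0 : y' ≠ 0 := by rintro rfl; simp at ht
  obtain ⟨a, ha, i₀, hi₀, hia⟩ := sup_deg x' hx0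
  obtain ⟨b, hb, j₀, hj₀, hjb⟩ := sup_deg y' hy0
  obtain ⟨mu, hmu⟩ := exists_mult (cf δ) hF' ht
  obtain ⟨mv, hmv⟩ := exists_mult (dv k F) hF' ht
  obtain ⟨nu, hnu⟩ := exists_mult (cf δ) hG' hs
  obtain ⟨nv, hnv⟩ := exists_mult (dv k F) hG' hs
  have hmu' : mu ≠ 0 → b ≤ a := by
    intro h0
    have h1 := deg_u δ ha j₀
    rw [hmu j₀, natDegree_mul h0 (pow_ne_zero 2 hj₀), natDegree_pow, hjb] at h1
    omega
  have hnu' : nu ≠ 0 → a ≤ b := by
    intro h0
    have h1 := deg_u δ hb i₀
    rw [hnu i₀, natDegree_mul h0 (pow_ne_zero 2 hi₀), natDegree_pow, hia] at h1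
    omega
  have hmv' : mv ≠ 0 → b < a := by
    intro h0
    have h2 : cr x' (fun i => derivative (x' i)) j₀ = mv * y' j₀ ^ 2 := hmv j₀
    have h1 := deg_v ha j₀ (by rw [h2]; exact mul_ne_zero h0 (pow_ne_zero 2 hj₀))
    rw [h2, natDegree_mul h0 (pow_ne_zero 2 hj₀), natDegree_pow, hjb] at h1
    omega
  have hnv' : nv ≠ 0 → a < b := by
    intro h0
    have h2 : cr y' (fun i => derivative (y' i)) i₀ = nv * x' i₀ ^ 2 := hnv i₀
    have h1 := deg_v hb i₀ (by rw [h2]; exact mul_ne_zero h0 (pow_ne_zero 2 hi₀))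
    rw [h2, natDegree_mul h0 (pow_ne_zero 2 hi₀), natDegree_pow, hia] at h1
    omega
  have hdet : ∃ α β : F[X], (α ≠ 0 ∨ β ≠ 0) ∧ α * mu + β * mv = 0 ∧ α * nu + β * nv = 0 := by
    have hA : mv * nu = 0 := by
      by_contra h
      have h1 := hmv' (left_ne_zero_of_mul h)
      have h2 := hnu' (right_ne_zero_of_mul h)
      omega
    have hB : mu * nv = 0 := by
      by_contra h
      have h1 := hmu' (left_ne_zero_of_mul h)
      have h2 := hnv' (right_ne_zero_of_mul h)
      omega
    by_cases h1 : mu = 0 ∧ mv = 0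
    · by_cases h2 : nu = 0 ∧ nv = 0
      · exact ⟨1, 0, Or.inl one_ne_zero, by simp [h1.1], by simp [h2.1]⟩
      · refine ⟨-nv, nu, ?_, by simp [h1.1, h1.2], by ring⟩
        by_contra h3
        push Not at h3
        exact h2 ⟨h3.2, by simpa using h3.1⟩
    · refine ⟨-mv, mu, ?_, by ring, ?_⟩
      · by_contra h3
        push Not at h3
        exact h1 ⟨h3.2, by simpa using h3.1⟩
      · linear_combination hB - hA
  obtain ⟨α, β, h0, hm, hn⟩ := hdet
  obtain ⟨Du, hDu⟩ := exists_der_ext v hv htop (cf δ)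
  obtain ⟨Dv, hDv⟩ := exists_der_ext v hv htop (dv k F)
  refine ⟨aeval v α • Du + aeval v β • Dv, ?_, ?_, ?_⟩
  · intro hE
    have h1 : (aeval v α • Du + aeval v β • Dv : Derivation k K K) v = 0 := by rw [hE]; rfl
    have h2 : (aeval v α • Du + aeval v β • Dv : Derivation k K K) (algebraMap F K u) = 0 := by
      rw [hE]; rfl
    have h3 : Du v = 0 := by
      have := hDu X
      rw [aeval_X] at this
      rw [this]
      have : cf δ (X : F[X]) = 0 := by
        ext n
        rw [coeff_cf, coeff_X]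
        split_ifs <;> simp
      rw [this, map_zero]
    have h4 : Dv v = 1 := by
      have := hDv X
      rw [aeval_X] at this
      rw [this, dv_apply, derivative_X, map_one]
    have h5 : Du (algebraMap F K u) = 1 := by
      have := hDu (C u)
      rw [aeval_C] at this
      rw [this]
      have : cf δ (C u) = 1 := by
        ext n
        rw [coeff_cf, coeff_C, coeff_one]
        by_cases hn : n = 0
        · simp [hn, hu]
        · simp [hn]
      rw [this, map_one]
    have h6 : Dv (algebraMap F K u) = 0 := by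
      have := hDv (C u)
      rw [aeval_C] at this
      rw [this, dv_apply, derivative_C, map_zero]
    simp only [Derivation.coe_add, Derivation.coe_smul, Pi.add_apply, Pi.smul_apply, smul_eq_mul,
      h3, h4, h5, h6, mul_zero, mul_one, zero_add, add_zero] at h1 h2
    rcases h0 with h0 | h0
    · exact h0 (hinj (by rw [h2, map_zero]))
    · exact h0 (hinj (by rw [h1, map_zero]))
  · refine ratio_kill _ hxc fun i => ?_
    have h1 : ∀ i, (aeval v α • Du + aeval v β • Dv : Derivation k K K) (aeval v (x' i)) =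
        (aeval v : F[X] →ₐ[F] K) (α * cf δ (x' i) + β * dv k F (x' i)) := by
      intro i
      simp only [Derivation.coe_add, Derivation.coe_smul, Pi.add_apply, Pi.smul_apply, smul_eq_mul,
        hDu, hDv, map_add, map_mul]
    simp only [h1]
    have h2 := cr_map ((aeval v : F[X] →ₐ[F] K) : F[X] →+* K) x'
      (fun i => α * cf δ (x' i) + β * dv k F (x' i)) i
    rw [cr_comb, hmu i, hmv i] at h2
    have h3 : α * (mu * y' i ^ 2) + β * (mv * y' i ^ 2) = 0 := by linear_combination y' i ^ 2 * hm
    rw [h3, map_zero] at h2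
    exact h2
  · refine ratio_kill _ hye fun i => ?_
    have h1 : ∀ i, (aeval v α • Du + aeval v β • Dv : Derivation k K K) (aeval v (y' i)) =
        (aeval v : F[X] →ₐ[F] K) (α * cf δ (y' i) + β * dv k F (y' i)) := by
      intro i
      simp only [Derivation.coe_add, Derivation.coe_smul, Pi.add_apply, Pi.smul_apply, smul_eq_mul,
        hDu, hDv, map_add, map_mul]
    simp only [h1]
    have h2 := cr_map ((aeval v : F[X] →ₐ[F] K) : F[X] →+* K) y'
      (fun i => α * cf δ (y' i) + β * dv k F (y' i)) i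
    rw [cr_comb, hnu i, hnv i] at h2
    have h3 : α * (nu * x' i ^ 2) + β * (nv * x' i ^ 2) = 0 := by linear_combination x' i ^ 2 * hn
    rw [h3, map_zero] at h2
    exact h2

/-- a derivation which kills generators of the field is zero -/
theorem der_zero (E : Derivation k K K) (S : Set K) (hS : adjoin k S = ⊤)
    (h : ∀ z ∈ S, E z = 0) : E = 0 := by
  ext z
  have hz : z ∈ adjoin k S := by rw [hS]; trivial
  induction hz using IntermediateField.adjoin_induction with
  | mem z hz => exact h z hz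
  | algebraMap c => simp
  | add a b _ _ ha hb => simp only [map_add, ha, hb, Derivation.coe_zero, Pi.zero_apply, add_zero]
  | mul a b _ _ ha hb =>
    simp only [Derivation.coe_zero, Pi.zero_apply] at ha hb
    simp [ha, hb]
  | inv a _ ha =>
    simp only [Derivation.coe_zero, Pi.zero_apply] at ha
    simp [Derivation.leibniz_inv, ha]

/-- The ratios of the coordinates. -/
def ratios (x y : Fin 3 → K) : Set K :=
  {z | ∃ i j, z = x i / x j} ∪ {z | ∃ i j, z = y i / y j}

/-- The function field is not purely transcendental. -/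
theorem not_rational [CharP K 2] {x y : Fin 3 → K} (hx : x ≠ 0) (hy : y ≠ 0)
    (hF : ∑ i, x i * y i ^ 2 = 0) (hG : ∑ i, x i ^ 2 * y i = 0)
    (hgen : adjoin k (ratios x y) = ⊤) (u v : K) (huv : AlgebraicIndependent k ![u, v]) :
    adjoin k {u, v} ≠ ⊤ := by
  intro htop
  have hu : Transcendental k u := huv.transcendental 0
  let M := adjoin k {u}
  have hv : Transcendental M v := by
    have h1 := huv.transcendental_adjoin (s := {0}) (i := 1) (by simp)
    have h2 : ![u, v] '' {0} = {u} := by simp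
    rw [h2] at h1
    have h3 : (![u, v] : Fin 2 → K) 1 = v := rfl
    rw [h3] at h1
    rw [Transcendental, ← IsFractionRing.isAlgebraic_iff (Algebra.adjoin k {u}) M K]
    exact h1
  have htop' : adjoin M {v} = ⊤ := by
    apply restrictScalars_injective k
    rw [adjoin_adjoin_left, restrictScalars_top]
    rw [← htop]
    rfl
  have hδ : ∃ δ : Derivation k M M, δ (AdjoinSimple.gen k u) = 1 := by
    have h1 : Transcendental k (AdjoinSimple.gen k u) := by
      intro h2
      apply hu
      have h3 : IsAlgebraic k (algebraMap M K (AdjoinSimple.gen k u)) := h2.algebraMap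
      rwa [AdjoinSimple.algebraMap_gen] at h3
    have h2 : adjoin k {AdjoinSimple.gen k u} = ⊤ := by
      rw [eq_top_iff]
      rintro z -
      obtain ⟨r, s, hrs⟩ := (IntermediateField.mem_adjoin_simple_iff k (z : K)).mp z.2
      rw [IntermediateField.mem_adjoin_simple_iff]
      refine ⟨r, s, ?_⟩
      apply (algebraMap M K).injective
      rw [map_div₀, ← aeval_algebraMap_apply, ← aeval_algebraMap_apply,
        AdjoinSimple.algebraMap_gen, ← hrs]
      rfl
    obtain ⟨D, hD⟩ := exists_der_ext _ h1 h2 (dv k k)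
    refine ⟨D, ?_⟩
    have := hD X
    rw [aeval_X] at this
    rw [this, dv_apply, derivative_X, map_one]
  obtain ⟨δ, hδ⟩ := hδ
  obtain ⟨E, hE0, hEx, hEy⟩ := exists_kill v hv htop' δ _ hδ hx hy hF hG
  apply hE0
  refine der_zero E _ hgen ?_
  rintro z (⟨i, j, rfl⟩ | ⟨i, j, rfl⟩)
  · exact hEx i j
  · exact hEy i j

end Pool.Agent.Y199.Gon
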