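import Pool.Agent.Y199.Gon.NonRat
import Pool.Agent.Y199.Gon.Defs

set_option autoImplicit false

namespace Pool.Agent.Y199.Gon

open MvPolynomial IntermediateField

universe u

section gen

variable {k K : Type u} [Field k] [Field K] [Algebra k K]

theorem value_eq_sum (P : Poly k) (x y : Fin 3 → K) :
    value P x y = ∑ m ∈ P.support, algebraMap k K (coeff m P) *
      ((∏ i, x i ^ m (Sum.inl i)) * ∏ i, y i ^ m (Sum.inr i)) := by
  rw [value, aeval_def, eval₂_eq']
  refine Finset.sum_congr rfl fun m _ => ?_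
  rw [Fintype.prod_sum_type]
  simp

theorem value_scale {P : Poly k} {a b : ℕ} (hP : IsBihom P a b) (x y : Fin 3 → K) (c e : K) :
    value P (fun i => c * x i) (fun i => e * y i) = c ^ a * e ^ b * value P x y := by
  rw [value_eq_sum, value_eq_sum, Finset.mul_sum]
  refine Finset.sum_congr rfl fun m hm => ?_
  obtain ⟨h1, h2⟩ := hP m hm
  simp only [mul_pow, Finset.prod_mul_distrib, Finset.prod_pow_eq_pow_sum, h1, h2]
  ring

theorem value_map {K' : Type u} [Field K'] [Algebra k K'] (f : K →ₐ[k] K') (P : Poly k)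
    (x y : Fin 3 → K) : value P (fun i => f (x i)) (fun i => f (y i)) = f (value P x y) := by
  rw [value_eq_sum, value_eq_sum, map_sum]
  refine Finset.sum_congr rfl fun m hm => ?_
  simp

theorem value_F (x y : Fin 3 → K) : value (eqF k) x y = ∑ i, x i * y i ^ 2 := by
  simp [value, eqF]

theorem value_G (x y : Fin 3 → K) : value (eqG k) x y = ∑ i, x i ^ 2 * y i := by
  simp [value, eqG]

theorem isBihom_sum {ι : Type} (s : Finset ι) (f : ι → Poly k) {a b : ℕ}
    (h : ∀ i ∈ s, IsBihom (f i) a b) : IsBihom (∑ i ∈ s, f i) a b := by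
  classical
  intro m hm
  have h1 := MvPolynomial.support_sum hm
  rw [Finset.mem_biUnion] at h1
  obtain ⟨i, hi, hmi⟩ := h1
  exact h i hi m hmi

theorem isBihom_monomial (m : (Fin 3 ⊕ Fin 3) →₀ ℕ) (c : k) {a b : ℕ}
    (h1 : ∑ i, m (Sum.inl i) = a) (h2 : ∑ i, m (Sum.inr i) = b) :
    IsBihom (monomial m c) a b := by
  intro m' hm'
  have h3 := Finsupp.mem_support_single m' m c |>.mp hm'
  rw [h3.1]
  exact ⟨h1, h2⟩

theorem isBihom_F : IsBihom (eqF k) 1 2 := by
  refine isBihom_sum _ _ fun i _ => ?_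
  have : (X (Sum.inl i) * X (Sum.inr i) ^ 2 : Poly k) =
      monomial (Finsupp.single (Sum.inl i) 1 + Finsupp.single (Sum.inr i) 2) 1 := by
    rw [X_pow_eq_monomial, X, monomial_mul, one_mul]
  rw [this]
  refine isBihom_monomial _ _ ?_ ?_
  · simp [Finsupp.single_apply]
  · simp [Finsupp.single_apply]

theorem isBihom_G : IsBihom (eqG k) 2 1 := by
  refine isBihom_sum _ _ fun i _ => ?_
  have : (X (Sum.inl i) ^ 2 * X (Sum.inr i) : Poly k) =
      monomial (Finsupp.single (Sum.inl i) 2 + Finsupp.single (Sum.inr i) 1) 1 := by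
    rw [X_pow_eq_monomial, X, monomial_mul, one_mul]
  rw [this]
  refine isBihom_monomial _ _ ?_ ?_
  · simp [Finsupp.single_apply]
  · simp [Finsupp.single_apply]

/-- Construction of the function field inside a bigger field. -/
theorem exists_functionField {S : Set ((Fin 3 → k) × (Fin 3 → k))} {x y : Fin 3 → K}
    (hx : x ≠ 0) (hy : y ≠ 0)
    (h : ∀ (P : Poly k) (a b : ℕ), IsBihom P a b →
      (value P x y = 0 ↔ ∀ q ∈ S, value P q.1 q.2 = 0)) :
    ∃ (K' : Type u) (_ : Field K') (_ : Algebra k K') (x' y' : Fin 3 → K'),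
      IsFunctionField S x' y' := by
  obtain ⟨i₀, hi₀⟩ : ∃ i, x i ≠ 0 := by
    by_contra h'
    push Not at h'
    exact hx (funext h')
  obtain ⟨j₀, hj₀⟩ : ∃ i, y i ≠ 0 := by
    by_contra h'
    push Not at h'
    exact hy (funext h')
  let T : Set K := {z | ∃ i j, z = x i / x j} ∪ {z | ∃ i j, z = y i / y j}
  let L := adjoin k T
  let x' : Fin 3 → L := fun i => ⟨x i / x i₀, subset_adjoin k T (Or.inl ⟨i, i₀, rfl⟩)⟩
  let y' : Fin 3 → L := fun i => ⟨y i / y j₀, subset_adjoin k T (Or.inr ⟨i, j₀, rfl⟩)⟩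
  have hx' : ∀ i j, ((x' i / x' j : L) : K) = x i / x j := by
    intro i j
    change (x i / x i₀) / (x j / x i₀) = x i / x j
    exact div_div_div_cancel_right₀ hi₀ _ _
  have hy' : ∀ i j, ((y' i / y' j : L) : K) = y i / y j := by
    intro i j
    change (y i / y j₀) / (y j / y j₀) = y i / y j
    exact div_div_div_cancel_right₀ hj₀ _ _
  refine ⟨L, inferInstance, inferInstance, x', y', ⟨?_, ?_, ?_, ?_⟩⟩
  · intro h0
    have h1 : (x' i₀ : K) = 0 := by rw [h0]; rfl
    change x i₀ / x i₀ = 0 at h1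
    rw [div_self hi₀] at h1
    exact one_ne_zero h1
  · intro h0
    have h1 : (y' j₀ : K) = 0 := by rw [h0]; rfl
    change y j₀ / y j₀ = 0 at h1
    rw [div_self hj₀] at h1
    exact one_ne_zero h1
  · intro P a b hP
    rw [← h P a b hP]
    have h1 := value_map (k := k) L.val P x' y'
    have h2 : value P (fun i => L.val (x' i)) (fun i => L.val (y' i)) =
        (x i₀)⁻¹ ^ a * (y j₀)⁻¹ ^ b * value P x y := by
      rw [← value_scale hP]
      congr 1
      · funext i
        change x i / x i₀ = _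
        rw [div_eq_inv_mul]
      · funext i
        change y i / y j₀ = _
        rw [div_eq_inv_mul]
    rw [h2] at h1
    constructor
    · intro h3
      rw [h3, map_zero] at h1
      exact (mul_eq_zero.mp h1).resolve_left
        (mul_ne_zero (pow_ne_zero _ (inv_ne_zero hi₀)) (pow_ne_zero _ (inv_ne_zero hj₀)))
    · intro h3
      rw [h3, mul_zero] at h1
      exact (map_eq_zero _).mp h1.symm
  · apply IntermediateField.map_injective L.val
    rw [adjoin_map, ← AlgHom.fieldRange_eq_map, fieldRange_val]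
    congr 1
    ext z
    constructor
    · rintro ⟨w, (⟨i, j, rfl⟩ | ⟨i, j, rfl⟩), rfl⟩
      · exact Or.inl ⟨i, j, hx' i j⟩
      · exact Or.inr ⟨i, j, hy' i j⟩
    · rintro (⟨i, j, rfl⟩ | ⟨i, j, rfl⟩)
      · exact ⟨_, Or.inl ⟨i, j, rfl⟩, hx' i j⟩
      · exact ⟨_, Or.inr ⟨i, j, rfl⟩, hy' i j⟩

end gen

section cross

variable {R : Type u} [CommRing R]

theorem cr_orth_left (x y : Fin 3 → R) : ∑ i, x i * cr x y i = 0 := by
  rw [Fin.sum_univ_three]; simp [cr]; ring

theorem cr_orth_right (x y : Fin 3 → R) : ∑ i, y i * cr x y i = 0 := by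
  rw [Fin.sum_univ_three]; simp [cr]; ring

/-- triple product -/
theorem cr_cr (w y s : Fin 3 → R) (h1 : ∑ i, w i * s i = 1) (h2 : ∑ i, y i * s i = 0)
    (i : Fin 3) : cr (cr w y) s i = y i := by
  rw [Fin.sum_univ_three] at h1 h2
  fin_cases i <;> simp [cr]
  · linear_combination y 0 * h1 - w 0 * h2
  · linear_combination y 1 * h1 - w 1 * h2
  · linear_combination y 2 * h1 - w 2 * h2

end cross

section pts

variable {k : Type u} [Field k]

theorem exists_dual {s : Fin 3 → k} (hs : s ≠ 0) : ∃ w : Fin 3 → k, ∑ i, w i * s i = 1 := by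
  classical
  obtain ⟨i₀, hi₀⟩ : ∃ i, s i ≠ 0 := by
    by_contra h'
    push Not at h'
    exact hs (funext h')
  refine ⟨fun i => if i = i₀ then (s i₀)⁻¹ else 0, ?_⟩
  rw [Finset.sum_eq_single i₀]
  · simp [hi₀]
  · intro b _ hb; simp [hb]
  · simp

/-- vectors orthogonal to `s` and `t` are multiples of `s × t` -/
theorem eq_mul_cr {s t y : Fin 3 → k} (h : cr s t ≠ 0) (h1 : ∑ i, s i * y i = 0)
    (h2 : ∑ i, t i * y i = 0) : ∃ l : k, ∀ i, y i = l * cr s t i := by
  obtain ⟨i₀, hi₀⟩ : ∃ i, cr s t i ≠ 0 := by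
    by_contra h'
    push Not at h'
    exact h (funext h')
  refine ⟨y i₀ / cr s t i₀, fun i => ?_⟩
  have := cr_par h1 h2 i₀ i
  field_simp
  linear_combination this

theorem exists_orth (s : Fin 3 → k) : ∃ y : Fin 3 → k, y ≠ 0 ∧ ∑ i, s i * y i = 0 := by
  by_cases h : s 0 = 0
  · refine ⟨![1, 0, 0], ?_, ?_⟩
    · intro h0
      have := congrFun h0 0
      simp at this
    · rw [Fin.sum_univ_three]; simp [h]
  · refine ⟨![s 1, -s 0, 0], ?_, ?_⟩
    · intro h0
      have := congrFun h0 1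
      simp at this
      exact h this
    · rw [Fin.sum_univ_three]; simp; ring

variable [CharP k 2]

theorem sq_sum (f : Fin 3 → k) : (∑ i, f i) ^ 2 = ∑ i, f i ^ 2 := by
  have h := map_sum (frobenius k 2) f Finset.univ
  simp only [frobenius_def] at h
  exact h

theorem orth_of_F {s x y : Fin 3 → k} (hs : ∀ i, s i ^ 2 = x i) :
    value (eqF k) x y = 0 ↔ ∑ i, s i * y i = 0 := by
  rw [value_F, ← pow_eq_zero_iff (two_ne_zero) (a := ∑ i, s i * y i), sq_sum]
  have : ∀ i, (s i * y i) ^ 2 = x i * y i ^ 2 := fun i => by rw [mul_pow, hs i]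
  simp only [this]

omit [CharP k 2] in
theorem orth_of_G {s x y : Fin 3 → k} (hs : ∀ i, s i ^ 2 = x i) :
    value (eqG k) x y = ∑ i, s i ^ 4 * y i := by
  rw [value_G]
  refine Finset.sum_congr rfl fun i _ => ?_
  rw [← hs i]; ring

omit [CharP k 2] in
/-- Points proportional to their fourth power are proportional to points over the field with four
elements. -/
theorem prop_of_cr {s : Fin 3 → k} (hs : s ≠ 0) (h : cr s (fun i => s i ^ 4) = 0) :
    ∃ c : k, c ≠ 0 ∧ (∀ i, s i ^ 4 = c * s i) ∧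
      ∃ (e : k) (s' : Fin 3 → k), e ≠ 0 ∧ s' ≠ 0 ∧ (∀ i, s i = e * s' i) ∧ ∀ i, s' i ^ 4 = s' i := by
  obtain ⟨i₀, hi₀⟩ : ∃ i, s i ≠ 0 := by
    by_contra h'
    push Not at h'
    exact hs (funext h')
  have h3 : s 1 * s 2 ^ 4 - s 2 * s 1 ^ 4 = 0 := congrFun h 0
  have h4 : s 2 * s 0 ^ 4 - s 0 * s 2 ^ 4 = 0 := congrFun h 1
  have h5 : s 0 * s 1 ^ 4 - s 1 * s 0 ^ 4 = 0 := congrFun h 2
  have key : ∀ i j, s i * s j ^ 4 = s j * s i ^ 4 := by
    intro i j
    fin_cases i <;> fin_cases j <;> simp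
    · linear_combination h5
    · linear_combination -h4
    · linear_combination -h5
    · linear_combination h3
    · linear_combination h4
    · linear_combination -h3
  refine ⟨s i₀ ^ 3, pow_ne_zero 3 hi₀, fun i => ?_, s i₀, fun i => s i / s i₀, hi₀, ?_,
    fun i => ?_, fun i => ?_⟩
  · have := key i₀ i
    apply mul_left_cancel₀ hi₀
    rw [this]; ring
  · intro h0
    have := congrFun h0 i₀
    simp only [Pi.zero_apply, div_self hi₀] at this
    exact one_ne_zero this
  · field_simp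
  · have := key i₀ i
    rw [div_pow, div_eq_div_iff (pow_ne_zero 4 hi₀) hi₀]
    linear_combination this

omit [CharP k 2] in
theorem mem_zl {F G : Poly k} {x y : Fin 3 → k} (hx : x ≠ 0) (hy : y ≠ 0) (h1 : value F x y = 0)
    (h2 : value G x y = 0) : (x, y) ∈ zeroLocus F G := ⟨hx, hy, h1, h2⟩

theorem exists_pt_aux {s x : Fin 3 → k} (hs : ∀ i, s i ^ 2 = x i) (hx : x ≠ 0) :
    ∃ y, (x, y) ∈ zeroLocus (eqF k) (eqG k) := by
  have hs0 : s ≠ 0 := by
    rintro rfl
    apply hx
    funext i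
    rw [← hs i]; simp
  by_cases h : cr s (fun i => s i ^ 4) = 0
  · obtain ⟨c, hc, hc', -⟩ := prop_of_cr hs0 h
    obtain ⟨y, hy, hy'⟩ := exists_orth s
    refine ⟨y, mem_zl hx hy ((orth_of_F hs).mpr hy') ?_⟩
    rw [orth_of_G hs]
    have : ∀ i, s i ^ 4 * y i = c * (s i * y i) := fun i => by rw [hc' i]; ring
    simp only [this]
    rw [← Finset.mul_sum, hy', mul_zero]
  · refine ⟨cr s (fun i => s i ^ 4), mem_zl hx h ((orth_of_F hs).mpr (cr_orth_left _ _)) ?_⟩
    rw [orth_of_G hs]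
    exact cr_orth_right s (fun i => s i ^ 4)

variable [IsAlgClosed k]

omit [CharP k 2] in
theorem exists_sqrt (x : Fin 3 → k) : ∃ s : Fin 3 → k, ∀ i, s i ^ 2 = x i := by
  have : ∀ i, ∃ z, z ^ 2 = x i := fun i => IsAlgClosed.exists_pow_nat_eq (x i) (by norm_num)
  choose s hs using this
  exact ⟨s, hs⟩

/-- The first projection is surjective. -/
theorem exists_pt {x : Fin 3 → k} (hx : x ≠ 0) : ∃ y, (x, y) ∈ zeroLocus (eqF k) (eqG k) := by
  obtain ⟨s, hs⟩ := exists_sqrt x
  exact exists_pt_aux hs hx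

end pts

end Pool.Agent.Y199.Gon
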